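import Pool.Agent.Helper20.Iface.Tab

/-!
# Codes of conditions, and universality of `IUniv`
-/

set_option autoImplicit false

namespace Pool.Agent.Helper20.Spectra

/-- recursive definition of tables -/
lemma exists_fix {α : Type} (F : (ℕ → α → Prop) → ℕ → α → Prop)
    (hF : ∀ (T T' : ℕ → α → Prop) (s : ℕ), (∀ a, a < s → ∀ z, (T a z ↔ T' a z)) →
      ∀ z, (F T s z ↔ F T' s z)) : ∃ T : ℕ → α → Prop, ∀ s z, T s z ↔ F T s z := by
  let T : ℕ → α → Prop := fun s => Nat.strongRec (motive := fun _ => α → Prop)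
    (fun s ih z => F (fun a z => ∃ h : a < s, ih a h z) s z) s
  have hT : ∀ s z, T s z ↔ F (fun a z => ∃ _ : a < s, T a z) s z := by
    intro s z
    show Nat.strongRec (motive := fun _ => α → Prop)
      (fun s ih z => F (fun a z => ∃ h : a < s, ih a h z) s z) s z ↔ _
    rw [Nat.strongRec_eq]
  refine ⟨T, fun s z => (hT s z).trans (hF _ _ s (fun a ha z => ?_) z)⟩
  constructor
  · rintro ⟨_, h⟩
    exact h
  · intro h
    exact ⟨ha, h⟩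

lemma tag_inj {i a j b : ℕ} (h : pr2 i a + 1 = pr2 j b + 1) : i = j ∧ a = b :=
  pr2_inj (Nat.succ_injective h)

lemma le_tag (i a : ℕ) : a ≤ pr2 i a + 1 := ((le_pr2 i a).2).trans (Nat.le_succ _)

lemma lt_tag (i a : ℕ) : a < pr2 i a + 1 := Nat.lt_succ_of_le (le_pr2 i a).2

lemma lt_tag2 (i a b : ℕ) : a < pr2 i (pr2 a b) + 1 ∧ b < pr2 i (pr2 a b) + 1 :=
  ⟨Nat.lt_succ_of_le (((le_pr2 a b).1).trans (le_pr2 _ _).2),
    Nat.lt_succ_of_le (((le_pr2 a b).2).trans (le_pr2 _ _).2)⟩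

section rules

variable {c : ℕ} {x B R r t : ℕ} {G : ℕ → ℕ → Prop} {V : ℕ → ℕ → (Fin c → ℕ) → ℕ → Prop}
  {T : ℕ → (Fin c → ℕ) → Prop} {w : Fin c → ℕ} {U : Set (Fin (c + 2) → ℕ)}

lemma FV_const (n : ℕ) : FV x B G V (pr2 0 n + 1) r w t ↔ ModR n r t := by
  constructor
  · rintro (⟨n', _, h, h'⟩ | ⟨h, _⟩ | ⟨v, _, h, _⟩ | ⟨a, _, b, _, h, _⟩ | ⟨a, _, b, _, h, _⟩)
    · rw [(tag_inj h).2]
      exact h'
    all_goals exact absurd (tag_inj h).1 (by norm_num)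
  · intro h
    exact Or.inl ⟨n, le_tag _ _, rfl, h⟩

lemma FV_x : FV x B G V (pr2 1 0 + 1) r w t ↔ ModR x r t := by
  constructor
  · rintro (⟨n', _, h, _⟩ | ⟨h, h'⟩ | ⟨v, _, h, _⟩ | ⟨a, _, b, _, h, _⟩ | ⟨a, _, b, _, h, _⟩)
    · exact absurd (tag_inj h).1 (by norm_num)
    · exact h'
    all_goals exact absurd (tag_inj h).1 (by norm_num)
  · intro h
    exact Or.inr (Or.inl ⟨rfl, h⟩)

lemma FV_var (v : ℕ) : FV x B G V (pr2 2 v + 1) r w t ↔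
    ∃ y, y ≤ B ∧ (VAL G w v y ∧ ModR y r t) := by
  constructor
  · rintro (⟨n', _, h, _⟩ | ⟨h, _⟩ | ⟨v, _, h, h'⟩ | ⟨a, _, b, _, h, _⟩ | ⟨a, _, b, _, h, _⟩)
    · exact absurd (tag_inj h).1 (by norm_num)
    · exact absurd (tag_inj h).1 (by norm_num)
    · rw [(tag_inj h).2]
      exact h'
    all_goals exact absurd (tag_inj h).1 (by norm_num)
  · intro h
    exact Or.inr (Or.inr (Or.inl ⟨v, le_tag _ _, rfl, h⟩))

lemma FV_add (a b : ℕ) : FV x B G V (pr2 3 (pr2 a b) + 1) r w t ↔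
    ∃ t₁, t₁ ≤ r ∧ ∃ t₂, t₂ ≤ r ∧ (V a r w t₁ ∧ (V b r w t₂ ∧ ModR (t₁ + t₂) r t)) := by
  constructor
  · rintro (⟨n', _, h, _⟩ | ⟨h, _⟩ | ⟨v, _, h, _⟩ | ⟨a, _, b, _, h, h'⟩ | ⟨a, _, b, _, h, _⟩)
    · exact absurd (tag_inj h).1 (by norm_num)
    · exact absurd (tag_inj h).1 (by norm_num)
    · exact absurd (tag_inj h).1 (by norm_num)
    · obtain ⟨h1, h2⟩ := pr2_inj (tag_inj h).2
      rw [h1, h2]
      exact h'
    · exact absurd (tag_inj h).1 (by norm_num)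
  · intro h
    exact Or.inr (Or.inr (Or.inr (Or.inl ⟨a, (lt_tag2 _ _ _).1.le, b, (lt_tag2 _ _ _).2.le,
      rfl, h⟩)))

lemma FV_mul (a b : ℕ) : FV x B G V (pr2 4 (pr2 a b) + 1) r w t ↔
    ∃ t₁, t₁ ≤ r ∧ ∃ t₂, t₂ ≤ r ∧ (V a r w t₁ ∧ (V b r w t₂ ∧ ModR (t₁ * t₂) r t)) := by
  constructor
  · rintro (⟨n', _, h, _⟩ | ⟨h, _⟩ | ⟨v, _, h, _⟩ | ⟨a, _, b, _, h, _⟩ | ⟨a, _, b, _, h, h'⟩)
    · exact absurd (tag_inj h).1 (by norm_num)
    · exact absurd (tag_inj h).1 (by norm_num)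
    · exact absurd (tag_inj h).1 (by norm_num)
    · exact absurd (tag_inj h).1 (by norm_num)
    · obtain ⟨h1, h2⟩ := pr2_inj (tag_inj h).2
      rw [h1, h2]
      exact h'
  · intro h
    exact Or.inr (Or.inr (Or.inr (Or.inr ⟨a, (lt_tag2 _ _ _).1.le, b, (lt_tag2 _ _ _).2.le,
      rfl, h⟩)))

lemma FT_not (a : ℕ) : FT U x B R G V T (pr2 0 a + 1) w ↔ ¬ T a w := by
  constructor
  · rintro (⟨a, _, h, h'⟩ | ⟨a, _, b, _, h, _⟩ | ⟨j, a, _, h, _⟩ | ⟨a, _, b, _, h, _⟩ |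
      ⟨e, _, g, _, h, _⟩)
    · rw [(tag_inj h).2]
      exact h'
    all_goals exact absurd (tag_inj h).1 (by norm_num)
  · intro h
    exact Or.inl ⟨a, le_tag _ _, rfl, h⟩

lemma FT_and (a b : ℕ) : FT U x B R G V T (pr2 1 (pr2 a b) + 1) w ↔ (T a w ∧ T b w) := by
  constructor
  · rintro (⟨a, _, h, _⟩ | ⟨a, _, b, _, h, h'⟩ | ⟨j, a, _, h, _⟩ | ⟨a, _, b, _, h, _⟩ |
      ⟨e, _, g, _, h, _⟩)
    · exact absurd (tag_inj h).1 (by norm_num)
    · obtain ⟨h1, h2⟩ := pr2_inj (tag_inj h).2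
      rw [h1, h2]
      exact h'
    all_goals exact absurd (tag_inj h).1 (by norm_num)
  · intro h
    exact Or.inr (Or.inl ⟨a, (lt_tag2 _ _ _).1.le, b, (lt_tag2 _ _ _).2.le, rfl, h⟩)

lemma FT_ex (j : Fin c) (a : ℕ) : FT U x B R G V T (pr2 2 (pr2 j a) + 1) w ↔
    ∃ y, y ≤ B ∧ T a (Function.update w j y) := by
  constructor
  · rintro (⟨a, _, h, _⟩ | ⟨a, _, b, _, h, _⟩ | ⟨j', a, _, h, h'⟩ | ⟨a, _, b, _, h, _⟩ |
      ⟨e, _, g, _, h, _⟩)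
    · exact absurd (tag_inj h).1 (by norm_num)
    · exact absurd (tag_inj h).1 (by norm_num)
    · obtain ⟨h1, h2⟩ := pr2_inj (tag_inj h).2
      rw [Fin.ext h1, h2]
      exact h'
    all_goals exact absurd (tag_inj h).1 (by norm_num)
  · intro h
    exact Or.inr (Or.inr (Or.inl ⟨j, a, (lt_tag2 _ _ _).2.le, rfl, h⟩))

lemma FT_eq (a b : ℕ) : FT U x B R G V T (pr2 3 (pr2 a b) + 1) w ↔
    ∀ r, r ≤ R → (1 ≤ r → ∃ t, t ≤ r ∧ (V a r w t ∧ V b r w t)) := by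
  constructor
  · rintro (⟨a, _, h, _⟩ | ⟨a, _, b, _, h, _⟩ | ⟨j, a, _, h, _⟩ | ⟨a, _, b, _, h, h'⟩ |
      ⟨e, _, g, _, h, _⟩)
    · exact absurd (tag_inj h).1 (by norm_num)
    · exact absurd (tag_inj h).1 (by norm_num)
    · exact absurd (tag_inj h).1 (by norm_num)
    · obtain ⟨h1, h2⟩ := pr2_inj (tag_inj h).2
      rw [h1, h2]
      exact h'
    · exact absurd (tag_inj h).1 (by norm_num)
  · intro h
    exact Or.inr (Or.inr (Or.inr (Or.inl ⟨a, (lt_tag2 _ _ _).1.le, b, (lt_tag2 _ _ _).2.le,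
      rfl, h⟩)))

lemma FT_call (e : ℕ) (g : Fin c → ℕ) : FT U x B R G V T (pr2 4 (pr2 e (tup c g)) + 1) w ↔
    ∃ w' : Fin c → ℕ, (∀ j, w' j ≤ B) ∧ ((∀ j, VAL G w (g j) (w' j)) ∧
      (Fin.cons e (Fin.cons x w' : Fin (c + 1) → ℕ) : Fin (c + 2) → ℕ) ∈ U) := by
  constructor
  · rintro (⟨a, _, h, _⟩ | ⟨a, _, b, _, h, _⟩ | ⟨j, a, _, h, _⟩ | ⟨a, _, b, _, h, _⟩ |
      ⟨e, _, g, _, h, h'⟩)
    · exact absurd (tag_inj h).1 (by norm_num)
    · exact absurd (tag_inj h).1 (by norm_num)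
    · exact absurd (tag_inj h).1 (by norm_num)
    · exact absurd (tag_inj h).1 (by norm_num)
    · obtain ⟨h1, h2⟩ := pr2_inj (tag_inj h).2
      rw [h1, tup_inj h2]
      exact h'
  · intro h
    exact Or.inr (Or.inr (Or.inr (Or.inr ⟨e, (lt_tag2 _ _ _).1.le, g,
      fun j => (le_tup g j).trans (lt_tag2 _ _ _).2.le, rfl, h⟩)))

lemma VAL_z (j : Fin c) (y : ℕ) : VAL G w j y ↔ y = w j := by
  constructor
  · rintro (⟨j', h, h'⟩ | ⟨g, _, h, _⟩)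
    · rw [Fin.ext h]
      exact h'
    · have := j.isLt
      omega
  · intro h
    exact Or.inl ⟨j, rfl, h⟩

lemma VAL_y (g y : ℕ) : VAL G w (c + g) y ↔ G g y := by
  constructor
  · rintro (⟨j', h, _⟩ | ⟨g', _, h, h'⟩)
    · have := j'.isLt
      omega
    · have : g = g' := by omega
      rw [this]
      exact h'
  · intro h
    exact Or.inr ⟨g, by omega, rfl, h⟩

end rules

/-- `V` is a correct table up to `a`, for the guess `Y` -/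
structure VOk (c x B R a : ℕ) (G : ℕ → ℕ → Prop) (V : ℕ → ℕ → (Fin c → ℕ) → ℕ → Prop)
    (Y : ℕ → ℕ) : Prop where
  hY : ∀ g, Y g ≤ B
  hG : ∀ g, g ≤ a → ∀ y, y ≤ B → (G g y ↔ y = Y g)
  hV : ∀ s, s ≤ a → ∀ r, r ≤ R → 1 ≤ r → ∀ w : Fin c → ℕ, (∀ j, w j ≤ B) → ∀ t, t ≤ r →
    (V s r w t ↔ FV x B G V s r w t)

lemma VOk.mono {c x B R a b : ℕ} {G : ℕ → ℕ → Prop} {V : ℕ → ℕ → (Fin c → ℕ) → ℕ → Prop}
    {Y : ℕ → ℕ} (h : VOk c x B R a G V Y) (hb : b ≤ a) : VOk c x B R b G V Y :=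
  ⟨h.hY, fun g hg => h.hG g (hg.trans hb), fun s hs => h.hV s (hs.trans hb)⟩

/-- `a` is a code of the polynomial `p` -/
def TCode (c m : ℕ) (p : MvPolynomial (Unit ⊕ (Fin m ⊕ Fin c)) ℕ) (a : ℕ) : Prop :=
  ∀ (x B R : ℕ) (G : ℕ → ℕ → Prop) (V : ℕ → ℕ → (Fin c → ℕ) → ℕ → Prop) (Y : ℕ → ℕ),
    VOk c x B R a G V Y → ∀ r, r ≤ R → 1 ≤ r → ∀ w : Fin c → ℕ, (∀ j, w j ≤ B) → ∀ t, t ≤ r →
    (V a r w t ↔ t = MvPolynomial.eval (Sum.elim (fun _ => x)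
      (Sum.elim (fun j : Fin m => Y j) w)) p % r)

lemma TCode.const {c m : ℕ} (n : ℕ) : TCode c m (MvPolynomial.C n) (pr2 0 n + 1) := by
  intro x B R G V Y h r hr hr1 w hw t ht
  rw [h.hV _ le_rfl r hr hr1 w hw t ht, FV_const, modR_iff hr1, MvPolynomial.eval_C]

lemma TCode.add {c m : ℕ} {p q : MvPolynomial (Unit ⊕ (Fin m ⊕ Fin c)) ℕ} {a b : ℕ}
    (hp : TCode c m p a) (hq : TCode c m q b) : TCode c m (p + q) (pr2 3 (pr2 a b) + 1) := by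
  intro x B R G V Y h r hr hr1 w hw t ht
  have h1 := hp x B R G V Y (h.mono (lt_tag2 _ _ _).1.le) r hr hr1 w hw
  have h2 := hq x B R G V Y (h.mono (lt_tag2 _ _ _).2.le) r hr hr1 w hw
  rw [h.hV _ le_rfl r hr hr1 w hw t ht, FV_add, map_add]
  constructor
  · rintro ⟨t₁, ht₁, t₂, ht₂, h3, h4, h5⟩
    rw [modR_iff hr1] at h5
    rw [h5, (h1 t₁ ht₁).1 h3, (h2 t₂ ht₂).1 h4, ← Nat.add_mod]
  · intro h3
    refine ⟨_, (Nat.mod_lt _ hr1).le, _, (Nat.mod_lt _ hr1).le,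
      (h1 _ (Nat.mod_lt _ hr1).le).2 rfl, (h2 _ (Nat.mod_lt _ hr1).le).2 rfl, ?_⟩
    rw [modR_iff hr1, h3, Nat.add_mod]

lemma TCode.mul {c m : ℕ} {p q : MvPolynomial (Unit ⊕ (Fin m ⊕ Fin c)) ℕ} {a b : ℕ}
    (hp : TCode c m p a) (hq : TCode c m q b) : TCode c m (p * q) (pr2 4 (pr2 a b) + 1) := by
  intro x B R G V Y h r hr hr1 w hw t ht
  have h1 := hp x B R G V Y (h.mono (lt_tag2 _ _ _).1.le) r hr hr1 w hw
  have h2 := hq x B R G V Y (h.mono (lt_tag2 _ _ _).2.le) r hr hr1 w hw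
  rw [h.hV _ le_rfl r hr hr1 w hw t ht, FV_mul, map_mul]
  constructor
  · rintro ⟨t₁, ht₁, t₂, ht₂, h3, h4, h5⟩
    rw [modR_iff hr1] at h5
    rw [h5, (h1 t₁ ht₁).1 h3, (h2 t₂ ht₂).1 h4, ← Nat.mul_mod]
  · intro h3
    refine ⟨_, (Nat.mod_lt _ hr1).le, _, (Nat.mod_lt _ hr1).le,
      (h1 _ (Nat.mod_lt _ hr1).le).2 rfl, (h2 _ (Nat.mod_lt _ hr1).le).2 rfl, ?_⟩
    rw [modR_iff hr1, h3, Nat.mul_mod]

/-- codes of the variables -/
def vcode (c m : ℕ) : Fin m ⊕ Fin c → ℕ := Sum.elim (fun j => c + j) (fun i => i)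

lemma VAL_vcode {c m x B R a : ℕ} {G : ℕ → ℕ → Prop} {V : ℕ → ℕ → (Fin c → ℕ) → ℕ → Prop}
    {Y : ℕ → ℕ} (h : VOk c x B R a G V Y) (w : Fin c → ℕ) (v : Fin m ⊕ Fin c)
    (hv : vcode c m v ≤ a) (y : ℕ) (hy : y ≤ B) :
    VAL G w (vcode c m v) y ↔ y = Sum.elim (fun j : Fin m => Y j) w v := by
  rcases v with j | i
  · show VAL G w (c + j) y ↔ y = Y j
    have hj : (j : ℕ) ≤ a := (Nat.le_add_left _ _).trans hv
    rw [VAL_y, h.hG j hj y hy]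
  · exact VAL_z i y

lemma elim_le {c m B : ℕ} {Y : ℕ → ℕ} (hY : ∀ g, Y g ≤ B) {w : Fin c → ℕ} (hw : ∀ j, w j ≤ B)
    (v : Fin m ⊕ Fin c) : Sum.elim (fun j : Fin m => Y j) w v ≤ B := by
  rcases v with j | i
  · exact hY j
  · exact hw i

lemma TCode.var {c m : ℕ} (v : Fin m ⊕ Fin c) :
    TCode c m (MvPolynomial.X (Sum.inr v)) (pr2 2 (vcode c m v) + 1) := by
  intro x B R G V Y h r hr hr1 w hw t ht
  rw [h.hV _ le_rfl r hr hr1 w hw t ht, FV_var, MvPolynomial.eval_X]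
  show _ ↔ t = Sum.elim (fun j : Fin m => Y j) w v % r
  have h1 := VAL_vcode h w v (le_tag _ _)
  constructor
  · rintro ⟨y, hy, h2, h3⟩
    rw [modR_iff hr1] at h3
    rw [h3, (h1 y hy).1 h2]
  · intro h2
    have h3 : Sum.elim (fun j : Fin m => Y j) w v ≤ B := elim_le h.hY hw v
    exact ⟨_, h3, (h1 _ h3).2 rfl, (modR_iff hr1).2 h2⟩

lemma TCode.x {c m : ℕ} : TCode c m (MvPolynomial.X (Sum.inl ())) (pr2 1 0 + 1) := by
  intro x B R G V Y h r hr hr1 w hw t ht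
  rw [h.hV _ le_rfl r hr hr1 w hw t ht, FV_x, MvPolynomial.eval_X, modR_iff hr1]
  exact Iff.rfl

lemma exists_tcode {c m : ℕ} (p : MvPolynomial (Unit ⊕ (Fin m ⊕ Fin c)) ℕ) :
    ∃ a, TCode c m p a := by
  induction p using MvPolynomial.induction_on with
  | C n => exact ⟨_, TCode.const n⟩
  | add p q hp hq =>
    obtain ⟨a, ha⟩ := hp
    obtain ⟨b, hb⟩ := hq
    exact ⟨_, ha.add hb⟩
  | mul_X p i hp =>
    obtain ⟨a, ha⟩ := hp
    rcases i with i | v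
    · exact ⟨_, ha.mul TCode.x⟩
    · exact ⟨_, ha.mul (TCode.var v)⟩

/-! ### Congruences -/

lemma poly_bound {σ : Type} (p : MvPolynomial σ ℕ) (k : ℕ) : ∃ C d : ℕ, ∀ (x : ℕ) (f : σ → ℕ),
    (∀ i, f i ≤ (x + 2) ^ k) → MvPolynomial.eval f p ≤ C * (x + 2) ^ d := by
  induction p using MvPolynomial.induction_on with
  | C n => exact ⟨n, 0, fun x f _ => by simp⟩
  | add p q hp hq =>
    obtain ⟨C, d, h⟩ := hp
    obtain ⟨C', d', h'⟩ := hq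
    refine ⟨C + C', d + d', fun x f hf => ?_⟩
    rw [map_add, add_mul]
    have h1 : (x + 2) ^ d ≤ (x + 2) ^ (d + d') := Nat.pow_le_pow_right (by omega) (by omega)
    have h2 : (x + 2) ^ d' ≤ (x + 2) ^ (d + d') := Nat.pow_le_pow_right (by omega) (by omega)
    exact add_le_add ((h x f hf).trans (Nat.mul_le_mul_left _ h1))
      ((h' x f hf).trans (Nat.mul_le_mul_left _ h2))
  | mul_X p i hp =>
    obtain ⟨C, d, h⟩ := hp
    refine ⟨C, d + k, fun x f hf => ?_⟩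
    rw [map_mul, MvPolynomial.eval_X, pow_add, ← mul_assoc]
    exact Nat.mul_le_mul (h x f hf) (hf i)

/-- numbers of polynomial size which are congruent modulo all small numbers are equal -/
lemma eq_of_mods (C d : ℕ) : ∃ N₀ : ℕ, ∀ N, N₀ ≤ N → ∀ x a b : ℕ, a ≤ C * (x + 2) ^ d →
    b ≤ C * (x + 2) ^ d → (∀ r, r ≤ x + N → 1 ≤ r → a % r = b % r) → a = b := by
  let p : Fin (d + 1) → ℕ := fun i => Nat.nth Nat.Prime i
  have hp : ∀ i, (p i).Prime := fun i => Nat.prime_nth_prime i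
  have hinj : ∀ i j, i ≠ j → p i ≠ p j := by
    intro i j hij h
    exact hij (Fin.ext ((Nat.nth_injective Nat.infinite_setOfPred_prime) h))
  let P := ∏ i, p i
  refine ⟨P * C * 2 ^ d + 2, fun N hN x a b ha hb h => ?_⟩
  have key : ∀ D : ℕ, D ≤ C * (x + 2) ^ d → (∀ r, r ≤ x + N → 1 ≤ r → r ∣ D) → D = 0 := by
    intro D hD hr
    by_contra hD0
    set n := x + N with hn
    have hn2 : 2 ≤ n := by omega
    let r : Fin (d + 1) → ℕ := fun i => p i ^ Nat.log (p i) n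
    have h1 : ∀ i, r i ≤ n := fun i => Nat.pow_log_le_self _ (by omega)
    have h2 : ∀ i, n < p i * r i := by
      intro i
      have := Nat.lt_pow_succ_log_self (hp i).one_lt n
      rw [pow_succ, mul_comm] at this
      exact this
    have h3 : (∏ i, r i) ∣ D := by
      refine Finset.prod_dvd_of_isRelPrime ?_ (fun i _ => hr (r i) (h1 i)
        (Nat.pos_of_ne_zero (pow_ne_zero _ (hp i).ne_zero)))
      intro i _ j _ hij
      exact Nat.coprime_iff_isRelPrime.1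
        (Nat.Coprime.pow _ _ ((Nat.coprime_primes (hp i) (hp j)).2 (hinj i j hij)))
    have h4 : (∏ i, r i) ≤ D := Nat.le_of_dvd (Nat.pos_of_ne_zero hD0) h3
    have h5 : n ^ (d + 1) ≤ P * ∏ i, r i := by
      have : ∏ _i : Fin (d + 1), n ≤ ∏ i, (p i * r i) :=
        Finset.prod_le_prod' (fun i _ => (h2 i).le)
      rw [Finset.prod_const, Finset.card_univ, Fintype.card_fin, Finset.prod_mul_distrib] at this
      exact this
    have h6 : (x + 2) ^ d ≤ 2 ^ d * n ^ d := by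
      rw [← mul_pow]
      exact Nat.pow_le_pow_left (by omega) d
    have h7 : n ^ (d + 1) ≤ P * C * 2 ^ d * n ^ d := by
      calc n ^ (d + 1) ≤ P * ∏ i, r i := h5
        _ ≤ P * (C * (x + 2) ^ d) := Nat.mul_le_mul_left _ (h4.trans hD)
        _ ≤ P * (C * (2 ^ d * n ^ d)) := Nat.mul_le_mul_left _ (Nat.mul_le_mul_left _ h6)
        _ = P * C * 2 ^ d * n ^ d := by ring
    rw [pow_succ, mul_comm] at h7
    have h8 : n ≤ P * C * 2 ^ d := Nat.le_of_mul_le_mul_right h7 (by positivity)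
    omega
  rcases le_total a b with hab | hab
  · have := key (b - a) ((Nat.sub_le _ _).trans hb) (fun r hr hr1 =>
      (Nat.modEq_iff_dvd' hab).1 (h r hr hr1))
    omega
  · have := key (a - b) ((Nat.sub_le _ _).trans ha) (fun r hr hr1 =>
      (Nat.modEq_iff_dvd' hab).1 (h r hr hr1).symm)
    omega

end Pool.Agent.Helper20.Spectra
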