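import Pool.Agent.Helper20.Sparse.Main

/-!
# Bounded formulas with bounded interface

Definitions for the hand-in `BoundedWidth` on the problem `Rudimentary sets versus spectra`.
-/

set_option autoImplicit false

namespace Pool.Agent.Helper20.Spectra

/-- relations `R(x; u₁, …, u_c)` between natural numbers -/
abbrev CRel (c : ℕ) := ℕ → (Fin c → ℕ) → Prop

/-- `Cond c m N Θ`: the condition `Θ(x; y₁, …, y_m; z₁, …, z_c)` is built up from equations between
polynomials in all its variables and from conditions `S(x; v₁, …, v_c)`, where `S ∈ N` and each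
`v_i` is one of the `y_j` or `z_j`, by negation, conjunction and quantification
`∃ z_i ≤ (x + 2) ^ c` (the same variable `z_i` may be quantified arbitrarily often). -/
inductive Cond (c m : ℕ) (N : Set (CRel c)) : (ℕ → (Fin m → ℕ) → (Fin c → ℕ) → Prop) → Prop
  | eq (p q : MvPolynomial (Unit ⊕ (Fin m ⊕ Fin c)) ℕ) :
      Cond c m N (fun x y z => MvPolynomial.eval (Sum.elim (fun _ => x) (Sum.elim y z)) p =
        MvPolynomial.eval (Sum.elim (fun _ => x) (Sum.elim y z)) q)
  | call (S : CRel c) (v : Fin c → Fin m ⊕ Fin c) : S ∈ N →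
      Cond c m N (fun x y z => S x (fun i => Sum.elim y z (v i)))
  | not (Θ : ℕ → (Fin m → ℕ) → (Fin c → ℕ) → Prop) : Cond c m N Θ →
      Cond c m N (fun x y z => ¬ Θ x y z)
  | and (Θ Θ' : ℕ → (Fin m → ℕ) → (Fin c → ℕ) → Prop) : Cond c m N Θ → Cond c m N Θ' →
      Cond c m N (fun x y z => Θ x y z ∧ Θ' x y z)
  | ex (i : Fin c) (Θ : ℕ → (Fin m → ℕ) → (Fin c → ℕ) → Prop) : Cond c m N Θ →
      Cond c m N (fun x y z => ∃ w, w ≤ (x + 2) ^ c ∧ Θ x y (Function.update z i w))

/-- The relations `R(x; u₁, …, u_c)` of depth at most `k`: for `u₁, …, u_c ≤ (x + 2) ^ c` they are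
given by `∃ y₁, …, y_m ≤ (x + 2) ^ c : Θ(x; y; u)`, where `m` is arbitrary and the condition `Θ`
uses only relations of smaller depth. -/
def level (c : ℕ) : ℕ → Set (CRel c)
  | 0 => ∅
  | k + 1 => {R | ∃ (m : ℕ) (Θ : ℕ → (Fin m → ℕ) → (Fin c → ℕ) → Prop), Cond c m (level c k) Θ ∧
      ∀ (x : ℕ) (u : Fin c → ℕ), (∀ i, u i ≤ (x + 2) ^ c) →
        (R x u ↔ ∃ y : Fin m → ℕ, (∀ j, y j ≤ (x + 2) ^ c) ∧ Θ x y u)}

/-- `A` is `{x | R(x; 0, …, 0)}` for some relation `R` of depth at most `k` with interface `c`. -/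
def InLevel (c k : ℕ) (A : Set ℕ) : Prop :=
  ∃ R ∈ level c k, ∀ x, x ∈ A ↔ R x (fun _ => 0)

section rud

variable {ι : Type} {a : ι → ℕ}

/-- tuples of numbers -/
lemma RudX.exTuple {k n : ℕ} {t : (Fin k → ℕ) → ℕ} (ht : IsPoly k t)
    {P : SOA a → (Fin k → ℕ) → (Fin n → ℕ) → Prop}
    (h : ∀ (m : ℕ) (f : Fin k → (Fin m → ℕ) → ℕ) (g : Fin n → (Fin m → ℕ) → ℕ),
      (∀ i, IsPoly m (f i)) → (∀ i, IsPoly m (g i)) →
      RudX a m (fun X v => P X (fun i => f i v) (fun i => g i v))) :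
    RudX a k (fun X v => ∃ y : Fin n → ℕ, (∀ i, y i ≤ t v) ∧ P X v y) := by
  have h1 := UD.exTup (b := a) (k := k) (t := fun v => t v + 1) (ht.add (IsPoly.const 1))
    (l := n) (r := 0) (P := fun X v x _ => P X v x)
    (fun m u x w hu hx _ => h m u x hu hx)
  have h2 := h1 k (fun i v => v i) (fun i => i.elim0) (fun i => IsPoly.var i) (fun i => i.elim0)
  refine h2.congr (fun X v => ?_)
  simp only [Nat.lt_succ_iff]

lemma RudX.allTuple {k n : ℕ} {t : (Fin k → ℕ) → ℕ} (ht : IsPoly k t)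
    {P : SOA a → (Fin k → ℕ) → (Fin n → ℕ) → Prop}
    (h : ∀ (m : ℕ) (f : Fin k → (Fin m → ℕ) → ℕ) (g : Fin n → (Fin m → ℕ) → ℕ),
      (∀ i, IsPoly m (f i)) → (∀ i, IsPoly m (g i)) →
      RudX a m (fun X v => P X (fun i => f i v) (fun i => g i v))) :
    RudX a k (fun X v => ∀ y : Fin n → ℕ, (∀ i, y i ≤ t v) → P X v y) := by
  have h1 := (RudX.exTuple (a := a) (k := k) (n := n) ht (P := fun X v y => ¬ P X v y)
    (fun m f g hf hg => (h m f g hf hg).not')).not'
  refine h1.congr (fun X v => ?_)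
  push Not
  rfl

end rud

/-- coding of tuples -/
def tup : (k : ℕ) → (Fin k → ℕ) → ℕ
  | 0, _ => 0
  | k + 1, w => pr2 (w 0) (tup k (Fin.tail w))

lemma tup_inj : ∀ {k : ℕ} {w w' : Fin k → ℕ}, tup k w = tup k w' → w = w'
  | 0, w, w', _ => funext (fun i => i.elim0)
  | k + 1, w, w', h => by
    obtain ⟨h1, h2⟩ := pr2_inj h
    have h3 := tup_inj h2
    rw [← Fin.cons_self_tail w, ← Fin.cons_self_tail w', h1, h3]

lemma le_tup : ∀ {k : ℕ} (w : Fin k → ℕ) (i : Fin k), w i ≤ tup k w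
  | 0, _, i => i.elim0
  | k + 1, w, i => by
    refine Fin.cases ?_ (fun i => ?_) i
    · exact (le_pr2 _ _).1
    · exact (le_tup (Fin.tail w) i).trans (le_pr2 _ _).2

lemma IsPoly.tup {m : ℕ} : ∀ {k : ℕ} {g : Fin k → (Fin m → ℕ) → ℕ} (_ : ∀ i, IsPoly m (g i)),
    IsPoly m (fun v => Spectra.tup k (fun i => g i v))
  | 0, _, _ => IsPoly.const 0
  | k + 1, g, hg => IsPoly.pr2 (hg 0) (IsPoly.tup (fun i => hg i.succ))

lemma IsPoly.comp {k m : ℕ} {t : (Fin k → ℕ) → ℕ} (ht : IsPoly k t)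
    {f : Fin k → (Fin m → ℕ) → ℕ} (hf : ∀ i, IsPoly m (f i)) :
    IsPoly m (fun v => t (fun i => f i v)) := ht.sub hf

lemma IsPoly.upd {k c : ℕ} {w : Fin c → (Fin k → ℕ) → ℕ} {t : (Fin k → ℕ) → ℕ}
    (hw : ∀ i, IsPoly k (w i)) (ht : IsPoly k t) (j : Fin c) :
    ∀ i, IsPoly k (Function.update w j t i) := by
  intro i
  by_cases h : i = j
  · subst h
    rw [Function.update_self]
    exact ht
  · rw [Function.update_of_ne h]
    exact hw i

lemma upd_eval {k c : ℕ} (w : Fin c → (Fin k → ℕ) → ℕ) (t : (Fin k → ℕ) → ℕ) (j : Fin c)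
    (v : Fin k → ℕ) :
    (fun i => Function.update w j t i v) = Function.update (fun i => w i v) j (t v) := by
  funext i
  by_cases h : i = j
  · subst h
    rw [Function.update_self, Function.update_self]
  · rw [Function.update_of_ne h, Function.update_of_ne h]

/-- polynomials in any variables, after substitution of polynomial functions -/
lemma IsPoly.evalMv {k : ℕ} {σ : Type} (p : MvPolynomial σ ℕ) {f : σ → (Fin k → ℕ) → ℕ}
    (hf : ∀ i, IsPoly k (f i)) : IsPoly k (fun v => MvPolynomial.eval (fun i => f i v) p) := by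
  induction p using MvPolynomial.induction_on with
  | C a =>
    have : (fun v : Fin k → ℕ => MvPolynomial.eval (fun i => f i v) (MvPolynomial.C a)) =
        fun _ => a := by
      funext v
      exact MvPolynomial.eval_C a
    rw [this]
    exact IsPoly.const a
  | add p q hp hq =>
    have : (fun v : Fin k → ℕ => MvPolynomial.eval (fun i => f i v) (p + q)) =
        fun v => MvPolynomial.eval (fun i => f i v) p + MvPolynomial.eval (fun i => f i v) q := by
      funext v
      exact map_add _ _ _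
    rw [this]
    exact hp.add hq
  | mul_X p i hp =>
    have : (fun v : Fin k → ℕ => MvPolynomial.eval (fun i => f i v) (p * MvPolynomial.X i)) =
        fun v => MvPolynomial.eval (fun i => f i v) p * f i v := by
      funext v
      rw [map_mul, MvPolynomial.eval_X]
    rw [this]
    exact hp.mul (hf i)

end Pool.Agent.Helper20.Spectra
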