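import Pool.Agent.Helper20.Iface.Univ

/-!
# The hierarchy exhausts the rudimentary sets, and no level contains all spectra
-/

set_option autoImplicit false

namespace Pool.Agent.Helper20.Spectra

/-- `R` restricted to small arguments -/
def bnd (c : ℕ) (R : CRel c) : Set (Fin (c + 1) → ℕ) :=
  {w | (∀ i : Fin c, w i.succ ≤ (w 0 + 2) ^ c) ∧ R (w 0) (Fin.tail w)}

lemma cond_rudX {ι : Type} {a : ι → ℕ} {c m : ℕ} {N : Set (CRel c)}
    (hN : ∀ S ∈ N, Rud (c + 1) (bnd c S)) {Θ : ℕ → (Fin m → ℕ) → (Fin c → ℕ) → Prop}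
    (h : Cond c m N Θ) : ∀ (K : ℕ) (X : (Fin K → ℕ) → ℕ) (Y : Fin m → (Fin K → ℕ) → ℕ)
      (Z : Fin c → (Fin K → ℕ) → ℕ), IsPoly K X → (∀ j, IsPoly K (Y j)) → (∀ i, IsPoly K (Z i)) →
      RudX a K (fun _ v => ((∀ j, Y j v ≤ (X v + 2) ^ c) ∧ (∀ i, Z i v ≤ (X v + 2) ^ c)) ∧
        Θ (X v) (fun j => Y j v) (fun i => Z i v)) := by
  have hW : ∀ (K : ℕ) (X : (Fin K → ℕ) → ℕ) (Y : Fin m → (Fin K → ℕ) → ℕ)
      (Z : Fin c → (Fin K → ℕ) → ℕ), IsPoly K X → (∀ j, IsPoly K (Y j)) → (∀ i, IsPoly K (Z i)) →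
      RudX a K (fun _ v => (∀ j, Y j v ≤ (X v + 2) ^ c) ∧ (∀ i, Z i v ≤ (X v + 2) ^ c)) := by
    intro K X Y Z hX hY hZ
    have hB := (hX.add (IsPoly.const 2)).pow c
    exact RudX.and' (RudX.all_fin (fun j => RudX.le (hY j) hB))
      (RudX.all_fin (fun j => RudX.le (hZ j) hB))
  induction h with
  | eq p q =>
    intro K X Y Z hX hY hZ
    refine RudX.and' (hW K X Y Z hX hY hZ) ?_
    have hf : ∀ i : Unit ⊕ (Fin m ⊕ Fin c),
        IsPoly K ((Sum.elim (fun _ => X) (Sum.elim Y Z) : Unit ⊕ (Fin m ⊕ Fin c) → _) i) := by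
      rintro (i | j | i)
      · exact hX
      · exact hY j
      · exact hZ i
    have e : ∀ v : Fin K → ℕ, (fun i => (Sum.elim (fun _ => X) (Sum.elim Y Z) :
        Unit ⊕ (Fin m ⊕ Fin c) → (Fin K → ℕ) → ℕ) i v) =
        Sum.elim (fun _ => X v) (Sum.elim (fun j => Y j v) (fun i => Z i v)) := by
      intro v
      funext i
      rcases i with i | j | i <;> rfl
    refine (RudX.eq (IsPoly.evalMv p hf) (IsPoly.evalMv q hf)).congr (fun _ v => ?_)
    rw [e]
  | call S v hS =>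
    intro K X Y Z hX hY hZ
    have h1 : RudX a K (fun _ u => (Fin.cons (X u) (fun j =>
        (Sum.elim Y Z : Fin m ⊕ Fin c → (Fin K → ℕ) → ℕ) (v j) u) : Fin (c + 1) → ℕ) ∈
        bnd c S) := by
      refine ((RudX.ofRud (hN S hS)).subst K (Fin.cons X (fun j => (Sum.elim Y Z :
        Fin m ⊕ Fin c → (Fin K → ℕ) → ℕ) (v j))) ?_).congr (fun _ u => ?_)
      · intro i
        refine Fin.cases ?_ (fun i => ?_) i
        · exact hX
        · show IsPoly K ((Sum.elim Y Z : Fin m ⊕ Fin c → (Fin K → ℕ) → ℕ) (v i))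
          rcases v i with j | j
          · exact hY j
          · exact hZ j
      · refine Iff.of_eq (congrArg (· ∈ bnd c S) ?_)
        funext i
        refine Fin.cases ?_ (fun i => ?_) i <;> rfl
    refine (RudX.and' (hW K X Y Z hX hY hZ) h1).congr (fun _ u => ?_)
    refine and_congr_right (fun hb => ?_)
    have e : (fun j => (Sum.elim Y Z : Fin m ⊕ Fin c → (Fin K → ℕ) → ℕ) (v j) u) =
        fun j => (Sum.elim (fun j => Y j u) (fun i => Z i u) : Fin m ⊕ Fin c → ℕ) (v j) := by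
      funext j
      rcases v j with l | l <;> rfl
    constructor
    · intro h2
      refine ⟨fun i => ?_, ?_⟩
      · show (Sum.elim Y Z : Fin m ⊕ Fin c → (Fin K → ℕ) → ℕ) (v i) u ≤ _
        rcases v i with l | l
        · exact hb.1 l
        · exact hb.2 l
      · show S (X u) (fun j => (Sum.elim Y Z : Fin m ⊕ Fin c → (Fin K → ℕ) → ℕ) (v j) u)
        rw [e]
        exact h2
    · rintro ⟨_, h2⟩
      have h3 : S (X u) (fun j => (Sum.elim Y Z : Fin m ⊕ Fin c → (Fin K → ℕ) → ℕ) (v j) u) := h2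
      rw [e] at h3
      exact h3
  | not Θ _ ih =>
    intro K X Y Z hX hY hZ
    refine (RudX.and' (hW K X Y Z hX hY hZ) (ih K X Y Z hX hY hZ).not').congr (fun _ v => ?_)
    tauto
  | and Θ Θ' _ _ ih ih' =>
    intro K X Y Z hX hY hZ
    refine (RudX.and' (ih K X Y Z hX hY hZ) (ih' K X Y Z hX hY hZ)).congr (fun _ v => ?_)
    tauto
  | ex i Θ _ ih =>
    intro K X Y Z hX hY hZ
    have hB := (hX.add (IsPoly.const 2)).pow c
    have h1 := ih (K + 1) (fun w => X (Fin.tail w)) (fun j w => Y j (Fin.tail w))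
      (Function.update (fun l w => Z l (Fin.tail w)) i (fun w => w 0)) hX.tail
      (fun j => (hY j).tail) (IsPoly.upd (fun l => (hZ l).tail) (IsPoly.var 0) i)
    have h2 := RudX.ex (a := a) hB (P := fun _ v w => ((∀ j, Y j v ≤ (X v + 2) ^ c) ∧
      (∀ l, Function.update (fun l => Z l v) i w l ≤ (X v + 2) ^ c)) ∧
        Θ (X v) (fun j => Y j v) (Function.update (fun l => Z l v) i w)) (by
      refine h1.congr (fun _ w => ?_)
      have e : ∀ l, Function.update (fun (l : Fin c) (w : Fin (K + 1) → ℕ) => Z l (Fin.tail w)) i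
          (fun w => w 0) l w = Function.update (fun l => Z l (Fin.tail w)) i (w 0) l :=
        fun l => congrFun (upd_eval (fun (l : Fin c) (w : Fin (K + 1) → ℕ) => Z l (Fin.tail w))
          (fun w => w 0) i w) l
      simp only [e])
    refine (RudX.and' (hW K X Y Z hX hY hZ) h2).congr (fun _ v => ?_)
    refine and_congr_right (fun hb => ?_)
    refine exists_congr (fun w => and_congr_right (fun hw => ?_))
    constructor
    · intro h3
      refine ⟨⟨hb.1, fun l => ?_⟩, h3⟩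
      by_cases hl : l = i
      · subst hl
        rw [Function.update_self]
        exact hw
      · rw [Function.update_of_ne hl]
        exact hb.2 l
    · rintro ⟨_, h3⟩
      exact h3

lemma level_rud (c : ℕ) : ∀ (k : ℕ), ∀ R ∈ level c k, Rud (c + 1) (bnd c R)
  | 0, R, hR => hR.elim
  | k + 1, R, ⟨m, Θ, hΘ, hR⟩ => by
    have ih := level_rud c k
    have h1 : RudX none0 (c + 1) (fun _ w => ∃ y : Fin m → ℕ, (∀ j, y j ≤ (w 0 + 2) ^ c) ∧
        (((∀ j, y j ≤ (w 0 + 2) ^ c) ∧ (∀ i : Fin c, w i.succ ≤ (w 0 + 2) ^ c)) ∧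
        Θ (w 0) y (fun i : Fin c => w i.succ))) := by
      refine RudX.exTuple (a := none0) (k := c + 1) (n := m) (t := fun w => (w 0 + 2) ^ c)
        (((IsPoly.var 0).add (IsPoly.const 2)).pow c)
        (P := fun _ w y => ((∀ j, y j ≤ (w 0 + 2) ^ c) ∧
          (∀ i : Fin c, w i.succ ≤ (w 0 + 2) ^ c)) ∧ Θ (w 0) y (fun i : Fin c => w i.succ)) ?_
      intro K f g hf hg
      exact cond_rudX ih hΘ K (f 0) g (fun i => f i.succ) (hf 0) hg (fun i => hf _)
    have h2 := RudX.and' (RudX.all_fin (a := none0) (fun i : Fin c => RudX.le (k := c + 1)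
      (s := fun w => w i.succ) (t := fun w => (w 0 + 2) ^ c) (IsPoly.var _)
      (((IsPoly.var 0).add (IsPoly.const 2)).pow c))) h1
    refine (h2.toRud' (fun i => i.elim) (fun i => i.elim)).congr ?_
    ext w
    refine and_congr_right (fun hb => ?_)
    rw [hR (w 0) (Fin.tail w) hb]
    constructor
    · rintro ⟨y, hy, _, h⟩
      exact ⟨y, hy, h⟩
    · rintro ⟨y, hy, h⟩
      exact ⟨y, hy, ⟨hy, hb⟩, h⟩

/-- the sets in the levels are rudimentary -/
lemma InLevel.isRudimentary {c k : ℕ} {A : Set ℕ} (h : InLevel c k A) : IsRudimentary A := by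
  obtain ⟨R, hR, hA⟩ := h
  rw [isRudimentary_iff]
  have h1 := (RudX.ofRud (a := none0) (level_rud c k R hR)).subst 1
    (Fin.cons (fun v => v 0) (fun _ _ => 0)) (by
      intro i
      refine Fin.cases ?_ (fun i => ?_) i
      · exact IsPoly.var 0
      · exact IsPoly.const 0)
  refine (h1.toRud' (fun i => i.elim) (fun i => i.elim)).congr ?_
  ext v
  show _ ↔ v 0 ∈ A
  rw [hA]
  constructor
  · rintro ⟨_, h2⟩
    exact h2
  · intro h2
    exact ⟨fun i => Nat.zero_le _, h2⟩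

/-- universal relations -/
lemma exists_universal (hQ : SRud) (c : ℕ) : ∀ k, ∃ U : Set (Fin (c + 2) → ℕ),
    Rud (c + 2) U ∧ IUnivFor c (level c k) U
  | 0 => ⟨{_v | False}, (RudX.const (a := none0) False).toRud' (fun i => i.elim)
      (fun i => i.elim), fun R hR => hR.elim⟩
  | k + 1 => by
    obtain ⟨U, hU, hU'⟩ := exists_universal hQ c k
    exact ⟨IUniv c U, iuniv_rud hQ hU, iuniv_for hU'⟩

/-- no level contains all spectra -/
theorem exists_spectrum_not_inLevel (c k : ℕ) : ∃ A : Set ℕ, IsSpectrum A ∧ ¬ InLevel c k A := by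
  by_contra hcon
  push Not at hcon
  have hQ : SRud := fun A hA => (hcon A hA).isRudimentary
  obtain ⟨U, hU, hU'⟩ := exists_universal hQ c k
  let D : Set ℕ := {x | ∃ i, i ≤ x ∧ (x = i + 1 ∧ ¬ (Fin.cons i (Fin.cons x (fun _ => 0) :
    Fin (c + 1) → ℕ) : Fin (c + 2) → ℕ) ∈ U)}
  have hD : IsRudimentary D := by
    rw [isRudimentary_iff]
    have h1 : RudX none0 1 (fun _ v => ∃ i, i ≤ v 0 ∧ (v 0 = i + 1 ∧
        ¬ (Fin.cons i (Fin.cons (v 0) (fun _ => 0) : Fin (c + 1) → ℕ) :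
          Fin (c + 2) → ℕ) ∈ U)) := by
      refine RudX.ex (IsPoly.var 0) (RudX.and' ?_ (RudX.not' ?_))
      · exact RudX.eq (s := fun u => u (Fin.succ 0)) (t := fun u => u 0 + 1) (IsPoly.var _)
          ((IsPoly.var 0).add (IsPoly.const 1))
      · exact memU_rudX hU (e := fun u => u 0) (x := fun u => u (Fin.succ 0))
          (w := fun _ _ => 0) (IsPoly.var 0) (IsPoly.var _) (fun _ => IsPoly.const 0)
    exact h1.toRud' (fun i => i.elim) (fun i => i.elim)
  have h0 : 0 ∉ D := by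
    rintro ⟨i, _, h, _⟩
    omega
  obtain ⟨R, hR, hDR⟩ := hcon D (hD.isSpectrum h0)
  obtain ⟨i, hi⟩ := hU' R hR
  have h1 := hi (i + 1) (fun _ => 0) (fun _ => Nat.zero_le _)
  have h2 := hDR (i + 1)
  have h3 : i + 1 ∈ D ↔ ¬ (Fin.cons i (Fin.cons (i + 1) (fun _ => 0) : Fin (c + 1) → ℕ) :
      Fin (c + 2) → ℕ) ∈ U := by
    constructor
    · rintro ⟨j, _, hj, h⟩
      have : j = i := by omega
      rw [this] at h
      exact h
    · intro h
      exact ⟨i, by omega, rfl, h⟩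
  tauto

/-! ### Exhaustion -/

lemma exists_cond {k : ℕ} {P : Set (Fin k → ℕ)} (hP : Rud k P) : ∀ d : ℕ, ∃ c₀ : ℕ, ∀ c, c₀ ≤ c →
    ∀ σ : Fin k → Fin c, ∃ Θ : ℕ → (Fin 0 → ℕ) → (Fin c → ℕ) → Prop, Cond c 0 ∅ Θ ∧
      ∀ x y z, (∀ i, z (σ i) ≤ (x + 2) ^ d) → (Θ x y z ↔ (fun i => z (σ i)) ∈ P) := by
  induction hP with
  | atom k p q =>
    intro d
    refine ⟨0, fun c _ σ => ⟨_, Cond.eq (MvPolynomial.rename (fun i => Sum.inr (Sum.inr (σ i))) p)
      (MvPolynomial.rename (fun i => Sum.inr (Sum.inr (σ i))) q), fun x y z _ => ?_⟩⟩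
    rw [MvPolynomial.eval_rename, MvPolynomial.eval_rename]
    exact Iff.rfl
  | compl k S _ ih =>
    intro d
    obtain ⟨c₀, h⟩ := ih d
    refine ⟨c₀, fun c hc σ => ?_⟩
    obtain ⟨Θ, h1, h2⟩ := h c hc σ
    exact ⟨_, Cond.not Θ h1, fun x y z hz => not_congr (h2 x y z hz)⟩
  | inter k S S' _ _ ih ih' =>
    intro d
    obtain ⟨c₀, h⟩ := ih d
    obtain ⟨c₁, h'⟩ := ih' d
    refine ⟨c₀ + c₁, fun c hc σ => ?_⟩
    obtain ⟨Θ, h1, h2⟩ := h c (by omega) σ
    obtain ⟨Θ', h1', h2'⟩ := h' c (by omega) σ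
    exact ⟨_, Cond.and Θ Θ' h1 h1', fun x y z hz => and_congr (h2 x y z hz) (h2' x y z hz)⟩
  | bex k p S _ ih =>
    intro d
    obtain ⟨C, e, hb⟩ := poly_bound p d
    obtain ⟨c₀, h⟩ := ih (d + (C + e))
    refine ⟨c₀ + (d + (C + e)) + k + 2, fun c hc σ => ?_⟩
    -- new variables
    obtain ⟨j₁, hj₁⟩ : ∃ j₁ : Fin c, ∀ i, σ i ≠ j₁ := by
      by_contra hcon
      push Not at hcon
      have h1 : Function.Surjective σ := fun j => hcon j
      have h2 := Fintype.card_le_of_surjective σ h1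
      rw [Fintype.card_fin, Fintype.card_fin] at h2
      omega
    obtain ⟨j₂, hj₂⟩ : ∃ j₂ : Fin c, ∀ i, (Fin.cons j₁ σ : Fin (k + 1) → Fin c) i ≠ j₂ := by
      by_contra hcon
      push Not at hcon
      have h1 : Function.Surjective (Fin.cons j₁ σ : Fin (k + 1) → Fin c) := fun j => hcon j
      have h2 := Fintype.card_le_of_surjective _ h1
      rw [Fintype.card_fin, Fintype.card_fin] at h2
      omega
    have hj12 : j₁ ≠ j₂ := hj₂ 0
    have hj2' : ∀ i, σ i ≠ j₂ := fun i => hj₂ i.succ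
    obtain ⟨Θ, h1, h2⟩ := h c (by omega) (Fin.cons j₁ σ)
    have hle : ∀ x : ℕ, C * (x + 2) ^ e ≤ (x + 2) ^ (C + e) := by
      intro x
      rw [pow_add]
      refine Nat.mul_le_mul_right _ ?_
      calc C ≤ 2 ^ C := Nat.lt_two_pow_self.le
        _ ≤ (x + 2) ^ C := Nat.pow_le_pow_left (by omega) C
    refine ⟨_, Cond.ex j₁ _ (Cond.and _ _ (Cond.ex j₂ _ (Cond.eq
      (MvPolynomial.X (Sum.inr (Sum.inr j₁)) + MvPolynomial.X (Sum.inr (Sum.inr j₂)))
      (MvPolynomial.rename (fun i => Sum.inr (Sum.inr (σ i))) p))) h1), fun x y z hz => ?_⟩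
    have hpb : MvPolynomial.eval (fun i => z (σ i)) p ≤ (x + 2) ^ (C + e) :=
      (hb x _ hz).trans (hle x)
    have hB : (x + 2) ^ (C + e) ≤ (x + 2) ^ c := Nat.pow_le_pow_right (by omega) (by omega)
    have hB' : (x + 2) ^ (C + e) ≤ (x + 2) ^ (d + (C + e)) :=
      Nat.pow_le_pow_right (by omega) (by omega)
    have hd : (x + 2) ^ d ≤ (x + 2) ^ (d + (C + e)) := Nat.pow_le_pow_right (by omega) (by omega)
    have e1 : ∀ w, (fun i => Function.update z j₁ w ((Fin.cons j₁ σ : Fin (k + 1) → Fin c) i)) =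
        (Fin.cons w (fun i => z (σ i)) : Fin (k + 1) → ℕ) := by
      intro w
      funext i
      refine Fin.cases ?_ (fun i => ?_) i
      · rw [Fin.cons_zero, Fin.cons_zero, Function.update_self]
      · rw [Fin.cons_succ, Fin.cons_succ, Function.update_of_ne (hj₁ i)]
    have e2 : ∀ w, w ≤ MvPolynomial.eval (fun i => z (σ i)) p →
        (Θ x y (Function.update z j₁ w) ↔ (Fin.cons w (fun i => z (σ i)) : Fin (k + 1) → ℕ) ∈ S) := by
      intro w hw
      have h3 := h2 x y (Function.update z j₁ w) (by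
        intro i
        have h4 : Function.update z j₁ w ((Fin.cons j₁ σ : Fin (k + 1) → Fin c) i) =
          (Fin.cons w (fun i => z (σ i)) : Fin (k + 1) → ℕ) i := congrFun (e1 w) i
        rw [h4]
        refine Fin.cases ?_ (fun i => ?_) i
        · exact (hw.trans hpb).trans hB'
        · exact (hz i).trans hd)
      rw [e1] at h3
      exact h3
    have e3 : ∀ w, (∃ w', w' ≤ (x + 2) ^ c ∧ MvPolynomial.eval (Sum.elim (fun _ => x)
        (Sum.elim y (Function.update (Function.update z j₁ w) j₂ w')))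
        (MvPolynomial.X (Sum.inr (Sum.inr j₁) : Unit ⊕ (Fin 0 ⊕ Fin c)) +
            MvPolynomial.X (Sum.inr (Sum.inr j₂))) =
        MvPolynomial.eval (Sum.elim (fun _ => x)
        (Sum.elim y (Function.update (Function.update z j₁ w) j₂ w')))
        (MvPolynomial.rename (fun i =>
            (Sum.inr (Sum.inr (σ i)) : Unit ⊕ (Fin 0 ⊕ Fin c))) p)) ↔
        w ≤ MvPolynomial.eval (fun i => z (σ i)) p := by
      intro w
      have e4 : ∀ w', MvPolynomial.eval (Sum.elim (fun _ => x)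
          (Sum.elim y (Function.update (Function.update z j₁ w) j₂ w')))
          (MvPolynomial.rename (fun i =>
            (Sum.inr (Sum.inr (σ i)) : Unit ⊕ (Fin 0 ⊕ Fin c))) p) =
          MvPolynomial.eval (fun i => z (σ i)) p := by
        intro w'
        rw [MvPolynomial.eval_rename]
        congr 1
        congr 1
        funext i
        show Function.update (Function.update z j₁ w) j₂ w' (σ i) = z (σ i)
        rw [Function.update_of_ne (hj2' i), Function.update_of_ne (hj₁ i)]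
      have e5 : ∀ w', MvPolynomial.eval (Sum.elim (fun _ => x)
          (Sum.elim y (Function.update (Function.update z j₁ w) j₂ w')))
          (MvPolynomial.X (Sum.inr (Sum.inr j₁) : Unit ⊕ (Fin 0 ⊕ Fin c)) +
            MvPolynomial.X (Sum.inr (Sum.inr j₂))) =
          w + w' := by
        intro w'
        rw [map_add, MvPolynomial.eval_X, MvPolynomial.eval_X]
        show Function.update (Function.update z j₁ w) j₂ w' j₁ +
          Function.update (Function.update z j₁ w) j₂ w' j₂ = w + w'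
        rw [Function.update_self, Function.update_of_ne hj12, Function.update_self]
      simp only [e4, e5]
      constructor
      · rintro ⟨w', _, h3⟩
        omega
      · intro h3
        exact ⟨MvPolynomial.eval (fun i => z (σ i)) p - w,
          ((Nat.sub_le _ _).trans hpb).trans hB, by omega⟩
    constructor
    · rintro ⟨w, _, h3, h4⟩
      have h5 := (e3 w).1 h3
      exact ⟨w, h5, (e2 w h5).1 h4⟩
    · rintro ⟨w, h3, h4⟩
      exact ⟨w, (h3.trans hpb).trans hB, (e3 w).2 h3, (e2 w h3).2 h4⟩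

/-- every rudimentary set lies in a level -/
lemma IsRudimentary.inLevel {A : Set ℕ} (hA : IsRudimentary A) : ∃ c, InLevel c 1 A := by
  rw [isRudimentary_iff] at hA
  obtain ⟨c₀, h⟩ := exists_cond hA 1
  obtain ⟨Θ, h1, h2⟩ := h (c₀ + 1) (by omega) (fun _ => 0)
  refine ⟨c₀ + 1, fun x u => ∃ y : Fin 0 → ℕ, (∀ j, y j ≤ (x + 2) ^ (c₀ + 1)) ∧
    ∃ w, w ≤ (x + 2) ^ (c₀ + 1) ∧ (MvPolynomial.eval (Sum.elim (fun _ => x)
        (Sum.elim y (Function.update u 0 w))) (MvPolynomial.X (Sum.inr (Sum.inr 0))) =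
      MvPolynomial.eval (Sum.elim (fun _ => x)
        (Sum.elim y (Function.update u 0 w))) (MvPolynomial.X (Sum.inl ())) ∧
      Θ x y (Function.update u 0 w)), ⟨0, _, Cond.ex 0 _ (Cond.and _ _ (Cond.eq _ _) h1),
      fun x u _ => Iff.rfl⟩, fun x => ?_⟩
  have hx : x ≤ (x + 2) ^ 1 := by
    rw [pow_one]
    omega
  have hx' : x ≤ (x + 2) ^ (c₀ + 1) :=
    hx.trans (Nat.pow_le_pow_right (by omega) (by omega))
  have h3 : ∀ y : Fin 0 → ℕ, (Θ x y (Function.update (fun _ => 0) 0 x) ↔ x ∈ A) := by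
    intro y
    have h4 := h2 x y (Function.update (fun _ => 0) 0 x) (fun i => by
      rw [Function.update_self]
      exact hx)
    rw [h4]
    have h6 : Function.update (fun _ : Fin (c₀ + 1) => 0) 0 x 0 = x := Function.update_self _ _ _
    exact Iff.of_eq (congrArg (· ∈ A) h6)
  constructor
  · intro h4
    refine ⟨fun i => i.elim0, fun i => i.elim0, x, hx', ?_, (h3 _).2 h4⟩
    rw [MvPolynomial.eval_X, MvPolynomial.eval_X]
    show Function.update (fun _ : Fin (c₀ + 1) => 0) 0 x 0 = x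
    rw [Function.update_self]
  · rintro ⟨y, _, w, _, h4, h5⟩
    rw [MvPolynomial.eval_X, MvPolynomial.eval_X] at h4
    have h6 : w = x := by
      have h7 : Function.update (fun _ : Fin (c₀ + 1) => 0) 0 w 0 = x := h4
      rw [Function.update_self] at h7
      exact h7
    rw [h6] at h5
    exact (h3 y).1 h5

theorem iface_main : (∀ A : Set ℕ, IsRudimentary A ↔ ∃ c k, InLevel c k A) ∧
    ∀ c k, ∃ A : Set ℕ, IsSpectrum A ∧ ¬ InLevel c k A := by
  refine ⟨fun A => ⟨fun hA => ?_, ?_⟩, exists_spectrum_not_inLevel⟩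
  · obtain ⟨c, hc⟩ := hA.inLevel
    exact ⟨c, 1, hc⟩
  · rintro ⟨c, k, h⟩
    exact h.isRudimentary

end Pool.Agent.Helper20.Spectra
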