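import Pool.Agent.Helper20.Iface.Def

/-!
# Tables of values and of truth values
-/

set_option autoImplicit false

namespace Pool.Agent.Helper20.Spectra

/-- the second-order variables -/
inductive WS
  | T | V | G

instance : Finite WS := by
  refine Finite.of_injective (fun s : WS => (match s with
    | WS.T => 0
    | WS.V => 1
    | WS.G => 2 : Fin 3)) ?_
  intro s t h
  cases s <;> cases t <;> simp_all

/-- arities -/
abbrev war (c : ℕ) : WS → ℕ
  | WS.T => c + 1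
  | WS.V => c + 3
  | WS.G => 2

/-- truth values -/
def tT {c : ℕ} (X : SOA (war c)) (s : ℕ) (w : Fin c → ℕ) : Prop :=
  X WS.T (Fin.cons s w : Fin (c + 1) → ℕ)

/-- values of terms -/
def tV {c : ℕ} (X : SOA (war c)) (s r : ℕ) (w : Fin c → ℕ) (t : ℕ) : Prop :=
  X WS.V (Fin.cons s (Fin.cons r (Fin.cons t w : Fin (c + 1) → ℕ) : Fin (c + 2) → ℕ) :
    Fin (c + 3) → ℕ)

/-- guesses -/
def tG {c : ℕ} (X : SOA (war c)) (g y : ℕ) : Prop := X WS.G ![g, y]

section tables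

variable {c : ℕ} {k : ℕ}

lemma tT_rudX {s : (Fin k → ℕ) → ℕ} {w : Fin c → (Fin k → ℕ) → ℕ} (hs : IsPoly k s)
    (hw : ∀ i, IsPoly k (w i)) : RudX (war c) k (fun X v => tT X (s v) (fun i => w i v)) := by
  refine (RudX.so' (a := war c) WS.T (t := Fin.cons s w) ?_).congr (fun X v => ?_)
  · intro i
    refine Fin.cases ?_ (fun i => ?_) i
    · exact hs
    · exact hw i
  · refine Iff.of_eq (congrArg (X WS.T) ?_)
    funext i
    refine Fin.cases ?_ (fun i => ?_) i <;> rfl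

lemma tV_rudX {s r t : (Fin k → ℕ) → ℕ} {w : Fin c → (Fin k → ℕ) → ℕ} (hs : IsPoly k s)
    (hr : IsPoly k r) (ht : IsPoly k t) (hw : ∀ i, IsPoly k (w i)) :
    RudX (war c) k (fun X v => tV X (s v) (r v) (fun i => w i v) (t v)) := by
  refine (RudX.so' (a := war c) WS.V
    (t := Fin.cons s (Fin.cons r (Fin.cons t w))) ?_).congr (fun X v => ?_)
  · intro i
    refine Fin.cases ?_ (fun i => Fin.cases ?_ (fun i => Fin.cases ?_ (fun i => ?_) i) i) i
    · exact hs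
    · exact hr
    · exact ht
    · exact hw i
  · refine Iff.of_eq (congrArg (X WS.V) ?_)
    funext i
    refine Fin.cases ?_ (fun i => Fin.cases ?_ (fun i => Fin.cases ?_ (fun i => ?_) i) i) i <;> rfl

lemma tG_rudX {s t : (Fin k → ℕ) → ℕ} (hs : IsPoly k s) (ht : IsPoly k t) :
    RudX (war c) k (fun X v => tG X (s v) (t v)) := by
  refine (RudX.so' (a := war c) WS.G (t := ![s, t]) ?_).congr (fun X v => ?_)
  · intro i
    fin_cases i
    · exact hs
    · exact ht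
  · refine Iff.of_eq (congrArg (X WS.G) ?_)
    funext i
    fin_cases i <;> rfl

/-- the variable with code `v` has the value `y` -/
def VAL (G : ℕ → ℕ → Prop) (w : Fin c → ℕ) (v y : ℕ) : Prop :=
  (∃ j : Fin c, v = j ∧ y = w j) ∨ ∃ g, g ≤ v ∧ (v = c + g ∧ G g y)

/-- `t` is the remainder of `n` modulo `r` -/
def ModR (n r t : ℕ) : Prop := t < r ∧ ∃ q, q ≤ n ∧ n = q * r + t

lemma modR_iff {n r t : ℕ} (hr : 1 ≤ r) : ModR n r t ↔ t = n % r := by
  constructor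
  · rintro ⟨h, q, _, rfl⟩
    rw [add_comm, Nat.add_mul_mod_self_right, Nat.mod_eq_of_lt h]
  · rintro rfl
    refine ⟨Nat.mod_lt _ hr, n / r, Nat.div_le_self _ _, ?_⟩
    rw [mul_comm]
    exact (Nat.div_add_mod n r).symm

/-- rules for the values of terms -/
def FV (x B : ℕ) (G : ℕ → ℕ → Prop) (V : ℕ → ℕ → (Fin c → ℕ) → ℕ → Prop) (s r : ℕ)
    (w : Fin c → ℕ) (t : ℕ) : Prop :=
  (∃ n, n ≤ s ∧ (s = pr2 0 n + 1 ∧ ModR n r t)) ∨
  ((s = pr2 1 0 + 1 ∧ ModR x r t) ∨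
  ((∃ v, v ≤ s ∧ (s = pr2 2 v + 1 ∧ ∃ y, y ≤ B ∧ (VAL G w v y ∧ ModR y r t))) ∨
  ((∃ a, a ≤ s ∧ ∃ b, b ≤ s ∧ (s = pr2 3 (pr2 a b) + 1 ∧ ∃ t₁, t₁ ≤ r ∧ ∃ t₂, t₂ ≤ r ∧
    (V a r w t₁ ∧ (V b r w t₂ ∧ ModR (t₁ + t₂) r t)))) ∨
  (∃ a, a ≤ s ∧ ∃ b, b ≤ s ∧ (s = pr2 4 (pr2 a b) + 1 ∧ ∃ t₁, t₁ ≤ r ∧ ∃ t₂, t₂ ≤ r ∧
    (V a r w t₁ ∧ (V b r w t₂ ∧ ModR (t₁ * t₂) r t)))))))

/-- rules for the truth values -/
def FT (U : Set (Fin (c + 2) → ℕ)) (x B R : ℕ) (G : ℕ → ℕ → Prop)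
    (V : ℕ → ℕ → (Fin c → ℕ) → ℕ → Prop) (T : ℕ → (Fin c → ℕ) → Prop) (s : ℕ) (w : Fin c → ℕ) :
    Prop :=
  (∃ a, a ≤ s ∧ (s = pr2 0 a + 1 ∧ ¬ T a w)) ∨
  ((∃ a, a ≤ s ∧ ∃ b, b ≤ s ∧ (s = pr2 1 (pr2 a b) + 1 ∧ (T a w ∧ T b w))) ∨
  ((∃ j : Fin c, ∃ a, a ≤ s ∧ (s = pr2 2 (pr2 j a) + 1 ∧ ∃ y, y ≤ B ∧
    T a (Function.update w j y))) ∨
  ((∃ a, a ≤ s ∧ ∃ b, b ≤ s ∧ (s = pr2 3 (pr2 a b) + 1 ∧ ∀ r, r ≤ R → (1 ≤ r → ∃ t, t ≤ r ∧
    (V a r w t ∧ V b r w t)))) ∨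
  (∃ e, e ≤ s ∧ ∃ g : Fin c → ℕ, (∀ j, g j ≤ s) ∧ (s = pr2 4 (pr2 e (tup c g)) + 1 ∧
    ∃ w' : Fin c → ℕ, (∀ j, w' j ≤ B) ∧ ((∀ j, VAL G w (g j) (w' j)) ∧
      (Fin.cons e (Fin.cons x w' : Fin (c + 1) → ℕ) : Fin (c + 2) → ℕ) ∈ U))))))

lemma VAL_rudX {v y : (Fin k → ℕ) → ℕ} {w : Fin c → (Fin k → ℕ) → ℕ} (hv : IsPoly k v)
    (hy : IsPoly k y) (hw : ∀ i, IsPoly k (w i)) :
    RudX (war c) k (fun X u => VAL (tG X) (fun i => w i u) (v u) (y u)) := by
  refine RudX.or (RudX.ex_fin (fun j => ?_)) (RudX.ex hv (RudX.and' ?_ ?_))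
  · exact (RudX.eq hv (IsPoly.const _)).and' (RudX.eq hy (hw j))
  · exact RudX.eq hv.tail ((IsPoly.const c).add (IsPoly.var 0))
  · exact tG_rudX (IsPoly.var 0) hy.tail

lemma ModR_rudX {n r t : (Fin k → ℕ) → ℕ} (hn : IsPoly k n) (hr : IsPoly k r) (ht : IsPoly k t) :
    RudX (war c) k (fun _ u => ModR (n u) (r u) (t u)) := by
  refine RudX.and' (RudX.lt ht hr) (RudX.ex hn ?_)
  exact RudX.eq hn.tail (((IsPoly.var 0).mul hr.tail).add ht.tail)

lemma FV_rudX {x B s r t : (Fin k → ℕ) → ℕ} {w : Fin c → (Fin k → ℕ) → ℕ} (hx : IsPoly k x)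
    (hB : IsPoly k B) (hs : IsPoly k s) (hr : IsPoly k r) (ht : IsPoly k t)
    (hw : ∀ i, IsPoly k (w i)) :
    RudX (war c) k (fun X u => FV (x u) (B u) (tG X) (tV X) (s u) (r u) (fun i => w i u) (t u)) := by
  refine RudX.or ?_ (RudX.or ?_ (RudX.or ?_ (RudX.or ?_ ?_)))
  · refine RudX.ex hs (RudX.and' ?_ ?_)
    · exact RudX.eq hs.tail (((IsPoly.const 0).pr2 (IsPoly.var 0)).add (IsPoly.const 1))
    · exact ModR_rudX (IsPoly.var 0) hr.tail ht.tail
  · refine RudX.and' ?_ ?_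
    · exact RudX.eq hs (IsPoly.const _)
    · exact ModR_rudX hx hr ht
  · refine RudX.ex hs (RudX.and' ?_ (RudX.ex hB.tail (RudX.and' ?_ ?_)))
    · exact RudX.eq hs.tail (((IsPoly.const 2).pr2 (IsPoly.var 0)).add (IsPoly.const 1))
    · exact VAL_rudX (v := fun u => u 1) (y := fun u => u 0)
        (w := fun i u => w i (Fin.tail (Fin.tail u))) (IsPoly.var 1) (IsPoly.var 0)
        (fun i => (hw i).tail.tail)
    · exact ModR_rudX (IsPoly.var 0) hr.tail.tail ht.tail.tail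
  · refine RudX.ex hs (RudX.ex hs.tail (RudX.and' ?_ (RudX.ex hr.tail.tail
      (RudX.ex hr.tail.tail.tail (RudX.and' ?_ (RudX.and' ?_ ?_))))))
    · exact RudX.eq hs.tail.tail
        (((IsPoly.const 3).pr2 ((IsPoly.var 1).pr2 (IsPoly.var 0))).add (IsPoly.const 1))
    · exact tV_rudX (s := fun u => u 3) (r := fun u => r (Fin.tail (Fin.tail (Fin.tail
        (Fin.tail u))))) (t := fun u => u 1) (w := fun i u => w i (Fin.tail (Fin.tail (Fin.tail
        (Fin.tail u))))) (IsPoly.var 3) hr.tail.tail.tail.tail (IsPoly.var 1)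
        (fun i => (hw i).tail.tail.tail.tail)
    · exact tV_rudX (s := fun u => u 2) (r := fun u => r (Fin.tail (Fin.tail (Fin.tail
        (Fin.tail u))))) (t := fun u => u 0) (w := fun i u => w i (Fin.tail (Fin.tail (Fin.tail
        (Fin.tail u))))) (IsPoly.var 2) hr.tail.tail.tail.tail (IsPoly.var 0)
        (fun i => (hw i).tail.tail.tail.tail)
    · exact ModR_rudX (n := fun u => u 1 + u 0) ((IsPoly.var 1).add (IsPoly.var 0))
        hr.tail.tail.tail.tail ht.tail.tail.tail.tail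
  · refine RudX.ex hs (RudX.ex hs.tail (RudX.and' ?_ (RudX.ex hr.tail.tail
      (RudX.ex hr.tail.tail.tail (RudX.and' ?_ (RudX.and' ?_ ?_))))))
    · exact RudX.eq hs.tail.tail
        (((IsPoly.const 4).pr2 ((IsPoly.var 1).pr2 (IsPoly.var 0))).add (IsPoly.const 1))
    · exact tV_rudX (s := fun u => u 3) (r := fun u => r (Fin.tail (Fin.tail (Fin.tail
        (Fin.tail u))))) (t := fun u => u 1) (w := fun i u => w i (Fin.tail (Fin.tail (Fin.tail
        (Fin.tail u))))) (IsPoly.var 3) hr.tail.tail.tail.tail (IsPoly.var 1)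
        (fun i => (hw i).tail.tail.tail.tail)
    · exact tV_rudX (s := fun u => u 2) (r := fun u => r (Fin.tail (Fin.tail (Fin.tail
        (Fin.tail u))))) (t := fun u => u 0) (w := fun i u => w i (Fin.tail (Fin.tail (Fin.tail
        (Fin.tail u))))) (IsPoly.var 2) hr.tail.tail.tail.tail (IsPoly.var 0)
        (fun i => (hw i).tail.tail.tail.tail)
    · exact ModR_rudX (n := fun u => u 1 * u 0) ((IsPoly.var 1).mul (IsPoly.var 0))
        hr.tail.tail.tail.tail ht.tail.tail.tail.tail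

lemma memU_rudX {ι : Type} {a : ι → ℕ} {U : Set (Fin (c + 2) → ℕ)} (hU : Rud (c + 2) U)
    {e x : (Fin k → ℕ) → ℕ} {w : Fin c → (Fin k → ℕ) → ℕ} (he : IsPoly k e) (hx : IsPoly k x)
    (hw : ∀ i, IsPoly k (w i)) :
    RudX a k (fun _ v => (Fin.cons (e v) (Fin.cons (x v) (fun i => w i v) : Fin (c + 1) → ℕ) :
      Fin (c + 2) → ℕ) ∈ U) := by
  refine ((RudX.ofRud hU).subst k (Fin.cons e (Fin.cons x w)) ?_).congr (fun X v => ?_)
  · intro i
    refine Fin.cases ?_ (fun i => Fin.cases ?_ (fun i => ?_) i) i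
    · exact he
    · exact hx
    · exact hw i
  · refine Iff.of_eq (congrArg (· ∈ U) ?_)
    funext i
    refine Fin.cases ?_ (fun i => Fin.cases ?_ (fun i => ?_) i) i <;> rfl

lemma FT_rudX {U : Set (Fin (c + 2) → ℕ)} (hU : Rud (c + 2) U) {x B R s : (Fin k → ℕ) → ℕ}
    {w : Fin c → (Fin k → ℕ) → ℕ} (hx : IsPoly k x) (hB : IsPoly k B) (hR : IsPoly k R)
    (hs : IsPoly k s) (hw : ∀ i, IsPoly k (w i)) :
    RudX (war c) k (fun X u => FT U (x u) (B u) (R u) (tG X) (tV X) (tT X) (s u)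
      (fun i => w i u)) := by
  refine RudX.or ?_ (RudX.or ?_ (RudX.or ?_ (RudX.or ?_ ?_)))
  · refine RudX.ex hs (RudX.and' ?_ (RudX.not' ?_))
    · exact RudX.eq hs.tail (((IsPoly.const 0).pr2 (IsPoly.var 0)).add (IsPoly.const 1))
    · exact tT_rudX (s := fun u => u 0) (w := fun i u => w i (Fin.tail u)) (IsPoly.var 0)
        (fun i => (hw i).tail)
  · refine RudX.ex hs (RudX.ex hs.tail (RudX.and' ?_ (RudX.and' ?_ ?_)))
    · exact RudX.eq hs.tail.tail
        (((IsPoly.const 1).pr2 ((IsPoly.var 1).pr2 (IsPoly.var 0))).add (IsPoly.const 1))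
    · exact tT_rudX (s := fun u => u 1) (w := fun i u => w i (Fin.tail (Fin.tail u)))
        (IsPoly.var 1) (fun i => (hw i).tail.tail)
    · exact tT_rudX (s := fun u => u 0) (w := fun i u => w i (Fin.tail (Fin.tail u)))
        (IsPoly.var 0) (fun i => (hw i).tail.tail)
  · refine RudX.ex_fin (fun j => RudX.ex hs (RudX.and' ?_ (RudX.ex hB.tail ?_)))
    · exact RudX.eq hs.tail
        (((IsPoly.const 2).pr2 ((IsPoly.const _).pr2 (IsPoly.var 0))).add (IsPoly.const 1))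
    · refine (tT_rudX (s := fun u => u 1)
        (w := Function.update (fun i u => w i (Fin.tail (Fin.tail u))) j (fun u => u 0))
        (IsPoly.var 1) (IsPoly.upd (fun i => (hw i).tail.tail) (IsPoly.var 0) j)).congr
        (fun X u => ?_)
      rw [upd_eval]
      exact Iff.rfl
  · refine RudX.ex hs (RudX.ex hs.tail (RudX.and' ?_ (RudX.all hR.tail.tail (RudX.imp ?_
      (RudX.ex (IsPoly.var 0) (RudX.and' ?_ ?_))))))
    · exact RudX.eq hs.tail.tail
        (((IsPoly.const 3).pr2 ((IsPoly.var 1).pr2 (IsPoly.var 0))).add (IsPoly.const 1))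
    · exact RudX.le (IsPoly.const 1) (IsPoly.var 0)
    · exact tV_rudX (s := fun u => u 3) (r := fun u => u 1) (t := fun u => u 0)
        (w := fun i u => w i (Fin.tail (Fin.tail (Fin.tail (Fin.tail u)))))
        (IsPoly.var 3) (IsPoly.var 1) (IsPoly.var 0) (fun i => (hw i).tail.tail.tail.tail)
    · exact tV_rudX (s := fun u => u 2) (r := fun u => u 1) (t := fun u => u 0)
        (w := fun i u => w i (Fin.tail (Fin.tail (Fin.tail (Fin.tail u)))))
        (IsPoly.var 2) (IsPoly.var 1) (IsPoly.var 0) (fun i => (hw i).tail.tail.tail.tail)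
  · refine RudX.ex hs ?_
    refine RudX.exTuple (k := k + 1) (n := c) (t := fun u => s (Fin.tail u)) hs.tail
      (P := fun (X : SOA (war c)) u g => (s (Fin.tail u) = pr2 4 (pr2 (u 0) (tup c g)) + 1 ∧
        ∃ w' : Fin c → ℕ, (∀ j, w' j ≤ B (Fin.tail u)) ∧
        ((∀ j, VAL (tG X) (fun i => w i (Fin.tail u)) (g j) (w' j)) ∧
        (Fin.cons (u 0) (Fin.cons (x (Fin.tail u)) w' : Fin (c + 1) → ℕ) : Fin (c + 2) → ℕ) ∈ U)))
      ?_
    intro m f g hf hg
    refine RudX.and' ?_ ?_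
    · exact RudX.eq (hs.tail.comp hf)
        (((IsPoly.const 4).pr2 ((hf 0).pr2 (IsPoly.tup hg))).add (IsPoly.const 1))
    · refine RudX.exTuple (k := m) (n := c) (t := fun v => B (Fin.tail (fun i => f i v)))
        (hB.tail.comp hf) (P := fun (X : SOA (war c)) v w' =>
        ((∀ j, VAL (tG X) (fun i => w i (Fin.tail (fun i => f i v))) (g j v) (w' j)) ∧
        (Fin.cons (f 0 v) (Fin.cons (x (Fin.tail (fun i => f i v))) w' : Fin (c + 1) → ℕ) :
          Fin (c + 2) → ℕ) ∈ U)) ?_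
      intro m' f' w' hf' hw'
      refine RudX.and' (RudX.all_fin (fun j => ?_)) ?_
      · exact VAL_rudX (v := fun v => g j (fun i => f' i v)) (y := w' j)
          (w := fun i v => w i (Fin.tail (fun i => f i (fun i => f' i v))))
          ((hg j).comp hf') (hw' j) (fun i => ((hw i).tail.comp hf).comp hf')
      · exact memU_rudX hU (e := fun v => f 0 (fun i => f' i v))
          (x := fun v => x (Fin.tail (fun i => f i (fun i => f' i v)))) (w := w')
          ((hf 0).comp hf') ((hx.tail.comp hf).comp hf') hw'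

end tables

/-- the conditions on the tables -/
def Tabs (c : ℕ) (U : Set (Fin (c + 2) → ℕ)) (s₀ x B R : ℕ) (X : SOA (war c)) : Prop :=
  (∀ g, g ≤ s₀ → ∃ y, y ≤ B ∧ (tG X g y ∧ ∀ y', y' ≤ B → (tG X g y' → y' = y))) ∧
  ((∀ s, s ≤ s₀ → ∀ r, r ≤ R → (1 ≤ r → ∀ w : Fin c → ℕ, (∀ j, w j ≤ B) → ∀ t, t ≤ r →
    (tV X s r w t ↔ FV x B (tG X) (tV X) s r w t))) ∧
  (∀ s, s ≤ s₀ → ∀ w : Fin c → ℕ, (∀ j, w j ≤ B) →
    (tT X s w ↔ FT U x B R (tG X) (tV X) (tT X) s w)))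

lemma Tabs_rudX {c k : ℕ} {U : Set (Fin (c + 2) → ℕ)} (hU : Rud (c + 2) U)
    {s₀ x B R : (Fin k → ℕ) → ℕ} (hs : IsPoly k s₀) (hx : IsPoly k x) (hB : IsPoly k B)
    (hR : IsPoly k R) :
    RudX (war c) k (fun X u => Tabs c U (s₀ u) (x u) (B u) (R u) X) := by
  refine RudX.and' ?_ (RudX.and' ?_ ?_)
  · refine RudX.all hs (RudX.ex hB.tail (RudX.and' ?_ (RudX.all hB.tail.tail
      (RudX.imp ?_ ?_))))
    · exact tG_rudX (IsPoly.var 1) (IsPoly.var 0)
    · exact tG_rudX (s := fun u => u 2) (t := fun u => u 0) (IsPoly.var 2) (IsPoly.var 0)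
    · exact RudX.eq (s := fun u => u 0) (t := fun u => u 1) (IsPoly.var 0) (IsPoly.var 1)
  · refine RudX.all hs (RudX.all hR.tail (RudX.imp ?_ ?_))
    · exact RudX.le (IsPoly.const 1) (IsPoly.var 0)
    · refine RudX.allTuple (k := k + 1 + 1) (n := c) (t := fun u => B (Fin.tail (Fin.tail u)))
        hB.tail.tail (P := fun (X : SOA (war c)) u w => ∀ t, t ≤ u 0 →
          (tV X (u 1) (u 0) w t ↔ FV (x (Fin.tail (Fin.tail u))) (B (Fin.tail (Fin.tail u)))
            (tG X) (tV X) (u 1) (u 0) w t)) ?_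
      intro m f g hf hg
      refine RudX.all (t := f 0) (hf 0) (RudX.iff ?_ ?_)
      · exact tV_rudX (s := fun u => f 1 (Fin.tail u)) (r := fun u => f 0 (Fin.tail u))
          (t := fun u => u 0) (w := fun i u => g i (Fin.tail u)) (hf 1).tail (hf 0).tail
          (IsPoly.var 0) (fun i => (hg i).tail)
      · exact FV_rudX (x := fun u => x (Fin.tail (Fin.tail (fun i => f i (Fin.tail u)))))
          (B := fun u => B (Fin.tail (Fin.tail (fun i => f i (Fin.tail u)))))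
          (s := fun u => f 1 (Fin.tail u)) (r := fun u => f 0 (Fin.tail u))
          (t := fun u => u 0) (w := fun i u => g i (Fin.tail u))
          (hx.tail.tail.comp hf).tail (hB.tail.tail.comp hf).tail (hf 1).tail (hf 0).tail
          (IsPoly.var 0) (fun i => (hg i).tail)
  · refine RudX.all hs ?_
    refine RudX.allTuple (k := k + 1) (n := c) (t := fun u => B (Fin.tail u)) hB.tail
      (P := fun (X : SOA (war c)) u w => (tT X (u 0) w ↔ FT U (x (Fin.tail u)) (B (Fin.tail u))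
        (R (Fin.tail u)) (tG X) (tV X) (tT X) (u 0) w)) ?_
    intro m f g hf hg
    refine RudX.iff ?_ ?_
    · exact tT_rudX (s := f 0) (w := g) (hf 0) hg
    · exact FT_rudX hU (x := fun u => x (Fin.tail (fun i => f i u)))
        (B := fun u => B (Fin.tail (fun i => f i u)))
        (R := fun u => R (Fin.tail (fun i => f i u))) (s := f 0) (w := g)
        (hx.tail.comp hf) (hB.tail.comp hf) (hR.tail.comp hf) (hf 0) hg

/-- the universal relation of the next level -/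
def IUniv (c : ℕ) (U : Set (Fin (c + 2) → ℕ)) : Set (Fin (c + 2) → ℕ) :=
  {v | ∃ X : SOA (war c), ∃ s₀, s₀ ≤ v 0 ∧ ∃ N, N ≤ v 0 ∧ (v 0 = pr2 s₀ N ∧
    (Tabs c U s₀ (v 1) ((v 1 + 2) ^ c) (v 1 + N) X ∧ tT X s₀ (fun j => v j.succ.succ)))}

theorem iuniv_rud (hQ : SRud) {c : ℕ} {U : Set (Fin (c + 2) → ℕ)} (hU : Rud (c + 2) U) :
    Rud (c + 2) (IUniv c U) := by
  have h1 : RudX (war c) (c + 2) (fun (X : SOA (war c)) v => ∃ s₀, s₀ ≤ v 0 ∧ ∃ N, N ≤ v 0 ∧
      (v 0 = pr2 s₀ N ∧ (Tabs c U s₀ (v 1) ((v 1 + 2) ^ c) (v 1 + N) X ∧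
        tT X s₀ (fun j => v j.succ.succ)))) := by
    refine RudX.ex (IsPoly.var 0) (RudX.ex (t := fun u => u (Fin.succ 0)) (IsPoly.var _)
      (RudX.and' ?_ (RudX.and' ?_ ?_)))
    · exact RudX.eq (s := fun u => u (Fin.succ (Fin.succ 0))) (t := fun u => pr2 (u 1) (u 0))
        (IsPoly.var _) ((IsPoly.var 1).pr2 (IsPoly.var 0))
    · exact Tabs_rudX hU (s₀ := fun u => u 1) (x := fun u => u (Fin.succ (Fin.succ 1)))
        (B := fun u => (u (Fin.succ (Fin.succ 1)) + 2) ^ c)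
        (R := fun u => u (Fin.succ (Fin.succ 1)) + u 0)
        (IsPoly.var 1) (IsPoly.var _) (((IsPoly.var _).add (IsPoly.const 2)).pow c)
        ((IsPoly.var _).add (IsPoly.var 0))
    · exact tT_rudX (s := fun u => u 1) (w := fun j u => u j.succ.succ.succ.succ)
        (IsPoly.var 1) (fun j => IsPoly.var _)
  exact rud_of_eso hQ (ESO.ofEx h1 none0)

end Pool.Agent.Helper20.Spectra
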