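import Pool.Agent.Helper20.Iface.Correct

/-!
# Universality of `IUniv`
-/

set_option autoImplicit false

namespace Pool.Agent.Helper20.Spectra

/-- `V` and `T` are correct tables up to `a`, for the guess `Y` -/
structure TOk (c : ℕ) (U : Set (Fin (c + 2) → ℕ)) (x B R a : ℕ) (G : ℕ → ℕ → Prop)
    (V : ℕ → ℕ → (Fin c → ℕ) → ℕ → Prop) (T : ℕ → (Fin c → ℕ) → Prop) (Y : ℕ → ℕ) : Prop where
  hVO : VOk c x B R a G V Y
  hT : ∀ s, s ≤ a → ∀ w : Fin c → ℕ, (∀ j, w j ≤ B) → (T s w ↔ FT U x B R G V T s w)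

lemma TOk.mono {c : ℕ} {U : Set (Fin (c + 2) → ℕ)} {x B R a b : ℕ} {G : ℕ → ℕ → Prop}
    {V : ℕ → ℕ → (Fin c → ℕ) → ℕ → Prop} {T : ℕ → (Fin c → ℕ) → Prop} {Y : ℕ → ℕ}
    (h : TOk c U x B R a G V T Y) (hb : b ≤ a) : TOk c U x B R b G V T Y :=
  ⟨h.hVO.mono hb, fun s hs => h.hT s (hs.trans hb)⟩

/-- `a` is a code of the condition `Θ` -/
def CCode (c m : ℕ) (U : Set (Fin (c + 2) → ℕ)) (Θ : ℕ → (Fin m → ℕ) → (Fin c → ℕ) → Prop)
    (a N₀ : ℕ) : Prop :=
  ∀ (x N : ℕ), N₀ ≤ N → ∀ (G : ℕ → ℕ → Prop) (V : ℕ → ℕ → (Fin c → ℕ) → ℕ → Prop)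
    (T : ℕ → (Fin c → ℕ) → Prop) (Y : ℕ → ℕ), TOk c U x ((x + 2) ^ c) (x + N) a G V T Y →
    ∀ w : Fin c → ℕ, (∀ j, w j ≤ (x + 2) ^ c) → (T a w ↔ Θ x (fun j => Y j) w)

/-- `U` is universal for `N` -/
def IUnivFor (c : ℕ) (N : Set (CRel c)) (U : Set (Fin (c + 2) → ℕ)) : Prop :=
  ∀ R ∈ N, ∃ i : ℕ, ∀ (x : ℕ) (u : Fin c → ℕ), (∀ r, u r ≤ (x + 2) ^ c) →
    (R x u ↔ (Fin.cons i (Fin.cons x u : Fin (c + 1) → ℕ) : Fin (c + 2) → ℕ) ∈ U)

lemma exists_ccode {c m : ℕ} {N : Set (CRel c)} {U : Set (Fin (c + 2) → ℕ)}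
    (hU : IUnivFor c N U) {Θ : ℕ → (Fin m → ℕ) → (Fin c → ℕ) → Prop} (hΘ : Cond c m N Θ) :
    ∃ a N₀, CCode c m U Θ a N₀ := by
  induction hΘ with
  | eq p q =>
    obtain ⟨a, ha⟩ := exists_tcode p
    obtain ⟨b, hb⟩ := exists_tcode q
    obtain ⟨C, d, hp⟩ := poly_bound p (c + 1)
    obtain ⟨C', d', hq⟩ := poly_bound q (c + 1)
    obtain ⟨N₀, hN₀⟩ := eq_of_mods (C + C') (d + d')
    refine ⟨pr2 3 (pr2 a b) + 1, N₀, ?_⟩
    intro x N hN G V T Y h w hw
    have hB : (x + 2) ^ c ≤ (x + 2) ^ (c + 1) := Nat.pow_le_pow_right (by omega) (by omega)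
    have hval : ∀ i, (Sum.elim (fun _ => x) (Sum.elim (fun j : Fin m => Y j) w) :
        Unit ⊕ (Fin m ⊕ Fin c) → ℕ) i ≤ (x + 2) ^ (c + 1) := by
      rintro (i | v)
      · show x ≤ _
        calc x ≤ x + 2 := by omega
          _ = (x + 2) ^ 1 := (pow_one _).symm
          _ ≤ (x + 2) ^ (c + 1) := Nat.pow_le_pow_right (by omega) (by omega)
      · exact (elim_le h.hVO.hY hw v).trans hB
    have h1 := ha x _ _ G V Y (h.hVO.mono (lt_tag2 _ _ _).1.le)
    have h2 := hb x _ _ G V Y (h.hVO.mono (lt_tag2 _ _ _).2.le)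
    rw [h.hT _ le_rfl w hw, FT_eq]
    constructor
    · intro h3
      have e1 : (x + 2) ^ d ≤ (x + 2) ^ (d + d') := Nat.pow_le_pow_right (by omega) (by omega)
      have e2 : (x + 2) ^ d' ≤ (x + 2) ^ (d + d') := Nat.pow_le_pow_right (by omega) (by omega)
      refine hN₀ N hN x _ _ ?_ ?_ ?_
      · exact (hp x _ hval).trans (Nat.mul_le_mul (by omega) e1)
      · exact (hq x _ hval).trans (Nat.mul_le_mul (by omega) e2)
      · intro r hr hr1
        obtain ⟨t, ht, h4, h5⟩ := h3 r hr hr1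
        rw [← (h1 r hr hr1 w hw t ht).1 h4, ← (h2 r hr hr1 w hw t ht).1 h5]
    · intro h3 r hr hr1
      have h3' : MvPolynomial.eval (Sum.elim (fun _ => x) (Sum.elim (fun j : Fin m => Y j) w)) p =
        MvPolynomial.eval (Sum.elim (fun _ => x) (Sum.elim (fun j : Fin m => Y j) w)) q := h3
      refine ⟨_, (Nat.mod_lt _ hr1).le, (h1 r hr hr1 w hw _ (Nat.mod_lt _ hr1).le).2 rfl, ?_⟩
      rw [h2 r hr hr1 w hw _ (Nat.mod_lt _ hr1).le, h3']
  | call S v hS =>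
    obtain ⟨e, he⟩ := hU S hS
    refine ⟨pr2 4 (pr2 e (tup c (fun j => vcode c m (v j)))) + 1, 0, ?_⟩
    intro x N _ G V T Y h w hw
    rw [h.hT _ le_rfl w hw, FT_call]
    have hle : ∀ j, (Sum.elim (fun j : Fin m => Y j) w : Fin m ⊕ Fin c → ℕ) (v j) ≤ (x + 2) ^ c :=
      fun j => elim_le h.hVO.hY hw (v j)
    have hV : ∀ j (y : ℕ), y ≤ (x + 2) ^ c → (VAL G w (vcode c m (v j)) y ↔
        y = (Sum.elim (fun j : Fin m => Y j) w : Fin m ⊕ Fin c → ℕ) (v j)) := by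
      intro j y hy
      refine VAL_vcode h.hVO w (v j) ?_ y hy
      exact ((le_tup (fun j => vcode c m (v j)) j).trans (lt_tag2 _ _ _).2.le)
    have h1 := he x (fun j => (Sum.elim (fun j : Fin m => Y j) w : Fin m ⊕ Fin c → ℕ) (v j)) hle
    constructor
    · rintro ⟨w', hw', h2, h3⟩
      have h4 : w' = fun j => (Sum.elim (fun j : Fin m => Y j) w : Fin m ⊕ Fin c → ℕ) (v j) :=
        funext (fun j => (hV j (w' j) (hw' j)).1 (h2 j))
      rw [h4, ← h1] at h3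
      exact h3
    · intro h2
      exact ⟨_, hle, fun j => (hV j _ (hle j)).2 rfl, h1.1 h2⟩
  | not Θ _ ih =>
    obtain ⟨a, N₀, h1⟩ := ih
    refine ⟨pr2 0 a + 1, N₀, ?_⟩
    intro x N hN G V T Y h w hw
    rw [h.hT _ le_rfl w hw, FT_not]
    exact not_congr (h1 x N hN G V T Y (h.mono (lt_tag _ _).le) w hw)
  | and Θ Θ' _ _ ih ih' =>
    obtain ⟨a, N₀, h1⟩ := ih
    obtain ⟨b, N₁, h2⟩ := ih'
    refine ⟨pr2 1 (pr2 a b) + 1, N₀ + N₁, ?_⟩
    intro x N hN G V T Y h w hw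
    rw [h.hT _ le_rfl w hw, FT_and]
    exact and_congr (h1 x N (by omega) G V T Y (h.mono (lt_tag2 _ _ _).1.le) w hw)
      (h2 x N (by omega) G V T Y (h.mono (lt_tag2 _ _ _).2.le) w hw)
  | ex i Θ _ ih =>
    obtain ⟨a, N₀, h1⟩ := ih
    refine ⟨pr2 2 (pr2 i a) + 1, N₀, ?_⟩
    intro x N hN G V T Y h w hw
    rw [h.hT _ le_rfl w hw, FT_ex]
    refine exists_congr (fun y => and_congr_right (fun hy => ?_))
    refine h1 x N hN G V T Y (h.mono (lt_tag2 _ _ _).2.le) _ (fun j => ?_)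
    by_cases hj : j = i
    · subst hj
      rw [Function.update_self]
      exact hy
    · rw [Function.update_of_ne hj]
      exact hw j

/-- the next level -/
def inext (c : ℕ) (N : Set (CRel c)) : Set (CRel c) :=
  {R | ∃ (m : ℕ) (Θ : ℕ → (Fin m → ℕ) → (Fin c → ℕ) → Prop), Cond c m N Θ ∧
      ∀ (x : ℕ) (u : Fin c → ℕ), (∀ i, u i ≤ (x + 2) ^ c) →
        (R x u ↔ ∃ y : Fin m → ℕ, (∀ j, y j ≤ (x + 2) ^ c) ∧ Θ x y u)}

lemma level_succ (c k : ℕ) : level c (k + 1) = inext c (level c k) := rfl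

/-- existence of tables -/
lemma exists_tabs (c : ℕ) (U : Set (Fin (c + 2) → ℕ)) (x B R a : ℕ) (Y : ℕ → ℕ)
    (hY : ∀ g, Y g ≤ B) : ∃ X : SOA (war c), Tabs c U a x B R X ∧
      TOk c U x B R a (tG X) (tV X) (tT X) Y := by
  -- values
  obtain ⟨V, hV⟩ := exists_fix (α := ℕ × (Fin c → ℕ) × ℕ)
    (fun V s z => FV x B (fun g y => y = Y g) (fun a r w t => V a (r, w, t)) s z.1 z.2.1 z.2.2) (by
      intro V V' s h z
      refine or_congr Iff.rfl (or_congr Iff.rfl (or_congr Iff.rfl (or_congr ?_ ?_)))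
      · refine exists_congr (fun a => and_congr_right (fun _ => exists_congr (fun b =>
          and_congr_right (fun _ => and_congr_right (fun hs => exists_congr (fun t₁ =>
          and_congr_right (fun _ => exists_congr (fun t₂ => and_congr_right (fun _ =>
          and_congr ?_ (and_congr ?_ Iff.rfl))))))))))
        · exact h a (hs ▸ (lt_tag2 _ _ _).1) _
        · exact h b (hs ▸ (lt_tag2 _ _ _).2) _
      · refine exists_congr (fun a => and_congr_right (fun _ => exists_congr (fun b =>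
          and_congr_right (fun _ => and_congr_right (fun hs => exists_congr (fun t₁ =>
          and_congr_right (fun _ => exists_congr (fun t₂ => and_congr_right (fun _ =>
          and_congr ?_ (and_congr ?_ Iff.rfl))))))))))
        · exact h a (hs ▸ (lt_tag2 _ _ _).1) _
        · exact h b (hs ▸ (lt_tag2 _ _ _).2) _)
  -- truth values
  obtain ⟨T, hT⟩ := exists_fix (α := Fin c → ℕ)
    (fun T s w => FT U x B R (fun g y => y = Y g) (fun a r w t => V a (r, w, t)) T s w) (by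
      intro T T' s h w
      refine or_congr ?_ (or_congr ?_ (or_congr ?_ (or_congr Iff.rfl Iff.rfl)))
      · exact exists_congr (fun a => and_congr_right (fun _ => and_congr_right (fun hs =>
          not_congr (h a (hs ▸ lt_tag _ _) _))))
      · exact exists_congr (fun a => and_congr_right (fun _ => exists_congr (fun b =>
          and_congr_right (fun _ => and_congr_right (fun hs =>
          and_congr (h a (hs ▸ (lt_tag2 _ _ _).1) _) (h b (hs ▸ (lt_tag2 _ _ _).2) _))))))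
      · exact exists_congr (fun j => exists_congr (fun a => and_congr_right (fun _ =>
          and_congr_right (fun hs => exists_congr (fun y => and_congr_right (fun _ =>
          h a (hs ▸ (lt_tag2 _ _ _).2) _))))))
      )
  let X : SOA (war c) := fun s => match s with
    | WS.T => fun v => T (v 0) (Fin.tail v)
    | WS.V => fun v => V (v 0) (v 1, Fin.tail (Fin.tail (Fin.tail v)), v 2)
    | WS.G => fun v => v 1 = Y (v 0)
  have eT : tT X = T := by
    funext s w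
    rfl
  have eV : tV X = fun a r w t => V a (r, w, t) := by
    funext s r w t
    rfl
  have eG : tG X = fun g y => y = Y g := by
    funext g y
    rfl
  refine ⟨X, ?_, ?_⟩
  · unfold Tabs
    rw [eT, eV, eG]
    refine ⟨fun g _ => ⟨Y g, hY g, rfl, fun y' _ h => h⟩, ?_, ?_⟩
    · intro s _ r _ _ w _ t _
      exact hV s (r, w, t)
    · intro s _ w _
      exact hT s w
  · rw [eT, eV, eG]
    refine ⟨⟨hY, fun g _ y _ => Iff.rfl, ?_⟩, ?_⟩
    · intro s _ r _ _ w _ t _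
      exact hV s (r, w, t)
    · intro s _ w _
      exact hT s w

lemma ok_of_tabs {c : ℕ} {U : Set (Fin (c + 2) → ℕ)} {x B R a : ℕ} {X : SOA (war c)}
    (h : Tabs c U a x B R X) : ∃ Y : ℕ → ℕ, TOk c U x B R a (tG X) (tV X) (tT X) Y := by
  obtain ⟨h1, h2, h3⟩ := h
  have h4 : ∀ g, ∃ y, y ≤ B ∧ (g ≤ a → ∀ y', y' ≤ B → (tG X g y' ↔ y' = y)) := by
    intro g
    by_cases hg : g ≤ a
    · obtain ⟨y, hy, h5, h6⟩ := h1 g hg
      exact ⟨y, hy, fun _ y' hy' => ⟨fun h7 => h6 y' hy' h7, fun h7 => h7 ▸ h5⟩⟩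
    · exact ⟨0, Nat.zero_le _, fun h5 => absurd h5 hg⟩
  choose Y hY1 hY2 using h4
  exact ⟨Y, ⟨hY1, fun g hg y hy => hY2 g hg y hy,
    fun s hs r hr hr1 w hw t ht => h2 s hs r hr hr1 w hw t ht⟩, fun s hs w hw => h3 s hs w hw⟩

theorem iuniv_for {c : ℕ} {N : Set (CRel c)} {U : Set (Fin (c + 2) → ℕ)}
    (hU : IUnivFor c N U) : IUnivFor c (inext c N) (IUniv c U) := by
  rintro R ⟨m, Θ, hΘ, hR⟩
  obtain ⟨a, N₀, hcode⟩ := exists_ccode hU hΘ
  refine ⟨pr2 a N₀, fun x u hu => ?_⟩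
  rw [hR x u hu]
  constructor
  · rintro ⟨y, hy, h⟩
    let Y : ℕ → ℕ := fun g => if h : g < m then y ⟨g, h⟩ else 0
    have hYx : ∀ g, Y g ≤ (x + 2) ^ c := by
      intro g
      by_cases hg : g < m
      · simp only [Y, dif_pos hg]
        exact hy _
      · simp only [Y, dif_neg hg]
        exact Nat.zero_le _
    have hYy : (fun j : Fin m => Y j) = y := by
      funext j
      simp only [Y, dif_pos j.isLt]
    obtain ⟨X, hX, hok⟩ := exists_tabs c U x ((x + 2) ^ c) (x + N₀) a Y hYx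
    refine ⟨X, a, (le_pr2 _ _).1, N₀, (le_pr2 _ _).2, rfl, hX, ?_⟩
    have h1 := hcode x N₀ le_rfl _ _ _ Y hok u hu
    rw [hYy] at h1
    exact h1.2 h
  · rintro ⟨X, a', _, N', _, he, hX, hT⟩
    obtain ⟨h1, h2⟩ := pr2_inj (he : pr2 a N₀ = pr2 a' N')
    subst h1 h2
    obtain ⟨Y, hok⟩ := ok_of_tabs (x := x) (B := (x + 2) ^ c) (R := x + N₀) hX
    refine ⟨fun j => Y j, fun j => hok.hVO.hY _, ?_⟩
    exact (hcode x N₀ le_rfl _ _ _ Y hok u hu).1 hT

end Pool.Agent.Helper20.Spectra
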